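import Pool.Agent.H55.MP842.RdF

/-!
# The weight `R^{p-2} u` is an `A_2` weight
-/

set_option autoImplicit false

open MeasureTheory Set Filter
open scoped ENNReal NNReal

namespace Pool.Agent.H55.MP842

/-- Data of a majorant `R` with `M R ≤ D R`. -/
structure Maj (R : ℝ → ℝ≥0∞) (D : ℝ≥0∞) : Prop where
  meas : Measurable R
  ne_zero : ∀ x, R x ≠ 0
  ne_top : ∀ᵐ x, R x ≠ ∞
  D0 : D ≠ 0
  D1 : D ≠ ∞
  A1 : ∀ a b x : ℝ, x ∈ Ioo a b → (∫⁻ y in Ioo a b, R y) / ENNReal.ofReal (b - a) ≤ D * R x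

lemma ofReal_sub_ne_zero {a b : ℝ} (hab : a < b) : ENNReal.ofReal (b - a) ≠ 0 := by
  simpa using hab

lemma Maj.int_ne_top {R : ℝ → ℝ≥0∞} {D : ℝ≥0∞} (h : Maj R D) {a b : ℝ} (hab : a < b) :
    ∫⁻ y in Ioo a b, R y ≠ ∞ := by
  have h1 : ∃ x ∈ Ioo a b, R x ≠ ∞ := by
    by_contra hcon
    push Not at hcon
    have h2 : volume (Ioo a b) = 0 := by
      refine measure_mono_null (fun x hx => ?_) (ae_iff.1 h.ne_top)
      simpa using hcon x hx
    rw [Real.volume_Ioo] at h2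
    exact ofReal_sub_ne_zero hab h2
  obtain ⟨x, hx, hRx⟩ := h1
  have h2 := h.A1 a b x hx
  rw [ENNReal.div_le_iff (ofReal_sub_ne_zero hab) ENNReal.ofReal_ne_top] at h2
  exact (lt_of_le_of_lt h2 (ENNReal.mul_lt_top (ENNReal.mul_lt_top h.D1.lt_top hRx.lt_top)
    ENNReal.ofReal_lt_top)).ne

lemma Maj.int_ne_zero {R : ℝ → ℝ≥0∞} {D : ℝ≥0∞} (h : Maj R D) {a b : ℝ} (hab : a < b) :
    ∫⁻ y in Ioo a b, R y ≠ 0 := by
  refine ((setLIntegral_pos_iff h.meas).2 ?_).ne'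
  have : Function.support R ∩ Ioo a b = Ioo a b :=
    inter_eq_right.2 fun x _ => h.ne_zero x
  rw [this, Real.volume_Ioo]
  exact pos_iff_ne_zero.2 (ofReal_sub_ne_zero hab)

/-- The weight `w = R^{p-2} u = R^{-s} u`, `s = 2 - p`. -/
noncomputable def wt (s : ℝ) (R u : ℝ → ℝ≥0∞) (x : ℝ) : ℝ≥0∞ := (R x ^ s)⁻¹ * u x

lemma measurable_wt {s : ℝ} {R u : ℝ → ℝ≥0∞} (hR : Measurable R) (hu : Measurable u) :
    Measurable (wt s R u) := ((hR.pow_const _).inv).mul hu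

lemma inv_le_mul_inv {a D r : ℝ≥0∞} (hD : D ≠ 0) (hD' : D ≠ ∞) (h : a ≤ D * r) :
    r⁻¹ ≤ D * a⁻¹ := by
  have h1 : (D * r)⁻¹ ≤ a⁻¹ := ENNReal.inv_le_inv.2 h
  rw [ENNReal.mul_inv (Or.inl hD) (Or.inl hD')] at h1
  calc r⁻¹ = D * (D⁻¹ * r⁻¹) := by
        rw [← mul_assoc, ENNReal.mul_inv_cancel hD hD', one_mul]
    _ ≤ D * a⁻¹ := by gcongr

variable {p : ℝ} {R u : ℝ → ℝ≥0∞} {D C : ℝ≥0∞}

lemma int_wt_le (hp2 : p < 2) (hR : Maj R D) (hu : Ap p u C) (a b : ℝ) :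
    ∫⁻ x in Ioo a b, wt (2 - p) R u x ≤ D ^ (2 - p) *
      (((∫⁻ y in Ioo a b, R y) / ENNReal.ofReal (b - a)) ^ (2 - p))⁻¹ *
      ∫⁻ x in Ioo a b, u x := by
  have hs : 0 ≤ 2 - p := by linarith
  rw [← lintegral_const_mul _ hu.meas]
  refine setLIntegral_mono' measurableSet_Ioo fun x hx => ?_
  unfold wt
  gcongr
  apply inv_le_mul_inv
  · exact (ENNReal.rpow_pos (pos_iff_ne_zero.2 hR.D0) hR.D1).ne'
  · exact ENNReal.rpow_ne_top_of_nonneg hs hR.D1
  · rw [← ENNReal.mul_rpow_of_nonneg _ _ hs]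
    exact ENNReal.rpow_le_rpow (hR.A1 a b x hx) hs

lemma wt_ne_zero (hR : Maj R D) (hu : Ap p u C) : ∀ᵐ x, wt (2 - p) R u x ≠ 0 := by
  filter_upwards [hR.ne_top, hu.ne_zero] with x h1 h2
  unfold wt
  refine mul_ne_zero (ENNReal.inv_ne_zero.2 ?_) h2
  exact ENNReal.rpow_ne_top_of_ne_zero (hR.ne_zero x) h1

lemma wt_ne_top (hR : Maj R D) (hu : Ap p u C) : ∀ᵐ x, wt (2 - p) R u x ≠ ∞ := by
  filter_upwards [hR.ne_top, hu.ne_top] with x h1 h2
  unfold wt
  refine ENNReal.mul_ne_top (ENNReal.inv_ne_top.2 ?_) h2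
  exact (ENNReal.rpow_pos (pos_iff_ne_zero.2 (hR.ne_zero x)) h1).ne'

lemma dual_two (w : ℝ → ℝ≥0∞) (x : ℝ) : dual 2 w x = (w x)⁻¹ := by
  unfold dual
  rw [show (-1 : ℝ) / (2 - 1) = -1 by norm_num, ENNReal.rpow_neg_one]

lemma int_wt_inv_le (hp : 1 < p) (hp2 : p < 2) (hR : Maj R D) (hu : Ap p u C) (a b : ℝ) :
    ∫⁻ x in Ioo a b, (wt (2 - p) R u x)⁻¹ ≤ (∫⁻ y in Ioo a b, R y) ^ (2 - p) *
      (∫⁻ x in Ioo a b, dual p u x) ^ (p - 1) := by
  have hs : 0 < 2 - p := by linarith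
  have hp1 : 0 < p - 1 := by linarith
  have hpq : (1 / (2 - p)).HolderConjugate (1 / (p - 1)) := by
    rw [Real.holderConjugate_iff]
    constructor
    · rw [lt_div_iff₀ hs]; linarith
    · field_simp; ring
  have hum := hu.meas
  have h1 := ENNReal.lintegral_mul_le_Lp_mul_Lq (volume.restrict (Ioo a b)) hpq
    (f := fun x => R x ^ (2 - p)) (g := fun x => (u x)⁻¹)
    (hR.meas.pow_const _).aemeasurable hum.inv.aemeasurable
  have e1 : ∫⁻ x in Ioo a b, (wt (2 - p) R u x)⁻¹ =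
      ∫⁻ x in Ioo a b, ((fun x => R x ^ (2 - p)) * (fun x => (u x)⁻¹)) x := by
    refine lintegral_congr_ae ?_
    filter_upwards [ae_restrict_of_ae hR.ne_top, ae_restrict_of_ae hu.ne_zero] with x h2 h3
    unfold wt
    rw [ENNReal.mul_inv (Or.inl ?_) (Or.inr h3), inv_inv]
    · rfl
    · exact ENNReal.inv_ne_zero.2 (ENNReal.rpow_ne_top_of_ne_zero (hR.ne_zero x) h2)
  rw [e1]
  refine h1.trans (le_of_eq ?_)
  congr 1
  · rw [one_div_one_div]
    congr 1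
    refine lintegral_congr fun x => ?_
    rw [← ENNReal.rpow_mul, mul_one_div_cancel hs.ne', ENNReal.rpow_one]
  · rw [one_div_one_div]
    congr 1
    refine lintegral_congr fun x => ?_
    unfold dual
    rw [← ENNReal.rpow_neg_one, ← ENNReal.rpow_mul]
    congr 1
    ring

/-- `w = R^{p-2} u` is an `A_2` weight with constant `D^{2-p} C`. -/
theorem Ap_wt (hp : 1 < p) (hp2 : p < 2) (hR : Maj R D) (hu : Ap p u C) :
    Ap 2 (wt (2 - p) R u) (D ^ (2 - p) * C) := by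
  have hs : 0 < 2 - p := by linarith
  have hp1 : 0 < p - 1 := by linarith
  refine ⟨measurable_wt hR.meas hu.meas, wt_ne_zero hR hu, wt_ne_top hR hu, ?_, ?_, ?_⟩
  · intro a b hab
    refine ne_top_of_le_ne_top ?_ (int_wt_le hp2 hR hu a b)
    refine ENNReal.mul_ne_top (ENNReal.mul_ne_top (ENNReal.rpow_ne_top_of_nonneg hs.le hR.D1)
      (ENNReal.inv_ne_top.2 ?_)) (hu.finU a b hab)
    refine (ENNReal.rpow_pos (ENNReal.div_pos (hR.int_ne_zero hab) ENNReal.ofReal_ne_top) ?_).ne'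
    exact ENNReal.div_ne_top (hR.int_ne_top hab) (ofReal_sub_ne_zero hab)
  · intro a b hab
    simp_rw [dual_two]
    refine ne_top_of_le_ne_top ?_ (int_wt_inv_le hp hp2 hR hu a b)
    exact ENNReal.mul_ne_top (ENNReal.rpow_ne_top_of_nonneg hs.le (hR.int_ne_top hab))
      (ENNReal.rpow_ne_top_of_nonneg hp1.le (hu.finS a b hab))
  · intro a b hab
    simp_rw [dual_two]
    rw [show (2 : ℝ) - 1 = 1 by norm_num, ENNReal.rpow_one]
    set A := ∫⁻ y in Ioo a b, R y with hA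
    set ℓ := ENNReal.ofReal (b - a) with hℓ
    have hA0 : A ≠ 0 := hR.int_ne_zero hab
    have hA1 : A ≠ ∞ := hR.int_ne_top hab
    have hℓ0 : ℓ ≠ 0 := ofReal_sub_ne_zero hab
    have hℓ1 : ℓ ≠ ∞ := ENNReal.ofReal_ne_top
    have hAs0 : A ^ (2 - p) ≠ 0 := (ENNReal.rpow_pos (pos_iff_ne_zero.2 hA0) hA1).ne'
    have hAs1 : A ^ (2 - p) ≠ ∞ := ENNReal.rpow_ne_top_of_nonneg hs.le hA1
    calc (∫⁻ x in Ioo a b, wt (2 - p) R u x) * (∫⁻ x in Ioo a b, (wt (2 - p) R u x)⁻¹)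
        ≤ (D ^ (2 - p) * ((A / ℓ) ^ (2 - p))⁻¹ * ∫⁻ x in Ioo a b, u x) *
          (A ^ (2 - p) * (∫⁻ x in Ioo a b, dual p u x) ^ (p - 1)) := by
          gcongr
          · exact int_wt_le hp2 hR hu a b
          · exact int_wt_inv_le hp hp2 hR hu a b
      _ = D ^ (2 - p) * (((A / ℓ) ^ (2 - p))⁻¹ * A ^ (2 - p)) *
          ((∫⁻ x in Ioo a b, u x) * (∫⁻ x in Ioo a b, dual p u x) ^ (p - 1)) := by ring
      _ = D ^ (2 - p) * ℓ ^ (2 - p) *
          ((∫⁻ x in Ioo a b, u x) * (∫⁻ x in Ioo a b, dual p u x) ^ (p - 1)) := by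
          congr 2
          rw [ENNReal.div_rpow_of_nonneg _ _ hs.le, ENNReal.inv_div (Or.inr hAs1) (Or.inr hAs0),
            ENNReal.div_mul_cancel hAs0 hAs1]
      _ ≤ D ^ (2 - p) * ℓ ^ (2 - p) * (C * ℓ ^ p) := by
          exact mul_le_mul' le_rfl (hu.bound a b hab)
      _ = D ^ (2 - p) * C * ℓ ^ (2 : ℝ) := by
          have : ℓ ^ (2 : ℝ) = ℓ ^ (2 - p) * ℓ ^ p := by
            rw [← ENNReal.rpow_add _ _ hℓ0 hℓ1]; congr 1; ring
          rw [this]; ring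

/-- The lower bound for the averages of `w`. -/
theorem le_int_wt (hp : 1 < p) (hp2 : p < 2) (hR : Maj R D) (hu : Ap p u C) {a b : ℝ}
    (hab : a < b) : ∫⁻ x in Ioo a b, u x ≤ C * (∫⁻ x in Ioo a b, wt (2 - p) R u x) *
      ((∫⁻ y in Ioo a b, R y) / ENNReal.ofReal (b - a)) ^ (2 - p) := by
  have hs : 0 < 2 - p := by linarith
  have hp1 : 0 < p - 1 := by linarith
  set A := ∫⁻ y in Ioo a b, R y with hA
  set ℓ := ENNReal.ofReal (b - a) with hℓ
  set Wt := ∫⁻ x in Ioo a b, wt (2 - p) R u x with hW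
  set Uu := ∫⁻ x in Ioo a b, u x with hUu
  set S := ∫⁻ x in Ioo a b, dual p u x with hS
  have hA0 : A ≠ 0 := hR.int_ne_zero hab
  have hA1 : A ≠ ∞ := hR.int_ne_top hab
  have hℓ0 : ℓ ≠ 0 := ofReal_sub_ne_zero hab
  have hℓ1 : ℓ ≠ ∞ := ENNReal.ofReal_ne_top
  have hwm := measurable_wt (s := 2 - p) hR.meas hu.meas
  -- Cauchy-Schwarz
  have h22 : (2 : ℝ).HolderConjugate 2 := by rw [Real.holderConjugate_iff]; norm_num
  have h1 := ENNReal.lintegral_mul_le_Lp_mul_Lq (volume.restrict (Ioo a b)) h22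
    (f := fun x => (wt (2 - p) R u x) ^ (1 / 2 : ℝ))
    (g := fun x => ((wt (2 - p) R u x)⁻¹) ^ (1 / 2 : ℝ))
    (hwm.pow_const _).aemeasurable (hwm.inv.pow_const _).aemeasurable
  have e1 : ∫⁻ x in Ioo a b, ((fun x => (wt (2 - p) R u x) ^ (1 / 2 : ℝ)) *
      (fun x => ((wt (2 - p) R u x)⁻¹) ^ (1 / 2 : ℝ))) x = ℓ := by
    rw [hℓ, ← Real.volume_Ioo, ← setLIntegral_one]
    refine lintegral_congr_ae ?_
    filter_upwards [ae_restrict_of_ae (wt_ne_zero hR hu), ae_restrict_of_ae (wt_ne_top hR hu)]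
      with x h2 h3
    simp only [Pi.mul_apply]
    rw [← ENNReal.mul_rpow_of_nonneg _ _ (by norm_num), ENNReal.mul_inv_cancel h2 h3,
      ENNReal.one_rpow]
  have e2 : ∀ g : ℝ → ℝ≥0∞, ∫⁻ x in Ioo a b, (g x ^ (1 / 2 : ℝ)) ^ (2 : ℝ) =
      ∫⁻ x in Ioo a b, g x := by
    intro g
    refine lintegral_congr fun x => ?_
    rw [← ENNReal.rpow_mul]; norm_num
  rw [e1] at h1
  simp only [e2] at h1
  have h2 : ℓ ^ (2 : ℝ) ≤ Wt * (A ^ (2 - p) * S ^ (p - 1)) := by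
    calc ℓ ^ (2 : ℝ) ≤ (Wt ^ (1 / 2 : ℝ) *
          (∫⁻ x in Ioo a b, (wt (2 - p) R u x)⁻¹) ^ (1 / 2 : ℝ)) ^ (2 : ℝ) :=
          ENNReal.rpow_le_rpow h1 (by norm_num)
      _ = Wt * ∫⁻ x in Ioo a b, (wt (2 - p) R u x)⁻¹ := by
          rw [← ENNReal.mul_rpow_of_nonneg _ _ (by norm_num), ← ENNReal.rpow_mul]
          norm_num
      _ ≤ _ := by
          gcongr
          exact int_wt_inv_le hp hp2 hR hu a b
  have h3 : ℓ ^ (2 : ℝ) * Uu ≤ ℓ ^ (2 : ℝ) * (C * Wt * (A / ℓ) ^ (2 - p)) := by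
    calc ℓ ^ (2 : ℝ) * Uu ≤ Wt * (A ^ (2 - p) * S ^ (p - 1)) * Uu := by gcongr
      _ = Wt * A ^ (2 - p) * (Uu * S ^ (p - 1)) := by ring
      _ ≤ Wt * A ^ (2 - p) * (C * ℓ ^ p) := mul_le_mul' le_rfl (hu.bound a b hab)
      _ = ℓ ^ (2 : ℝ) * (C * Wt * (A / ℓ) ^ (2 - p)) := by
          rw [ENNReal.div_rpow_of_nonneg _ _ hs.le, div_eq_mul_inv, ← ENNReal.rpow_neg]
          have : ℓ ^ p = ℓ ^ (2 : ℝ) * ℓ ^ (-(2 - p)) := by
            rw [← ENNReal.rpow_add _ _ hℓ0 hℓ1]; congr 1; ring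
          rw [this]; ring
  exact (ENNReal.mul_le_mul_iff_right (ENNReal.rpow_pos (pos_iff_ne_zero.2 hℓ0) hℓ1).ne'
    (ENNReal.rpow_ne_top_of_nonneg (by norm_num) hℓ1)).1 h3

/-- The inverse of an `A_2` weight. -/
lemma Ap_inv {w : ℝ → ℝ≥0∞} {B : ℝ≥0∞} (h : Ap 2 w B) : Ap 2 (fun x => (w x)⁻¹) B := by
  have h1 : ∀ x, dual 2 (fun x => (w x)⁻¹) x = w x := fun x => by rw [dual_two, inv_inv]
  have h2 : ∀ x, dual 2 w x = (w x)⁻¹ := dual_two w
  refine ⟨h.meas.inv, ?_, ?_, ?_, ?_, ?_⟩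
  · filter_upwards [h.ne_top] with x hx using ENNReal.inv_ne_zero.2 hx
  · filter_upwards [h.ne_zero] with x hx using ENNReal.inv_ne_top.2 hx
  · intro a b hab
    have := h.finS a b hab
    simpa [h2] using this
  · intro a b hab
    have := h.finU a b hab
    simpa [h1] using this
  · intro a b hab
    have := h.bound a b hab
    simp only [h1, h2] at this ⊢
    rw [show (2 : ℝ) - 1 = 1 by norm_num, ENNReal.rpow_one] at this ⊢
    rwa [mul_comm]

/-- Poisson averages of a nonnegative function. -/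
noncomputable def PL (g : ℝ → ℝ≥0∞) (z y : ℝ) : ℝ≥0∞ :=
  ∫⁻ x, ENNReal.ofReal (y / (Real.pi * ((z - x) ^ 2 + y ^ 2))) * g x

/-- Poisson averages of an `A_2` weight are bounded by averages over intervals. -/
theorem PL_le {w : ℝ → ℝ≥0∞} {B : ℝ≥0∞} (h : Ap 2 w B) (z : ℝ) {y : ℝ} (hy : 0 < y) :
    PL w z y ≤ ENNReal.ofReal (1 / y) * Kmuck 2 B * ∫⁻ x in Ioo (z - y) (z + y), w x := by
  have hf : Measurable ((Ioo (z - y) (z + y)).indicator (fun _ => (1 : ℝ≥0∞))) :=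
    measurable_const.indicator measurableSet_Ioo
  have h1 := muckenhoupt (p := 2) (by norm_num) h hf
  have h2 : ∫⁻ x, w x * ((Ioo (z - y) (z + y)).indicator (fun _ => (1 : ℝ≥0∞)) x) ^ (2 : ℝ) =
      ∫⁻ x in Ioo (z - y) (z + y), w x := by
    rw [← lintegral_indicator measurableSet_Ioo]
    refine lintegral_congr fun x => ?_
    by_cases hx : x ∈ Ioo (z - y) (z + y)
    · rw [indicator_of_mem hx, indicator_of_mem hx, ENNReal.one_rpow, mul_one]
    · rw [indicator_of_notMem hx, indicator_of_notMem hx, ENNReal.zero_rpow_of_pos (by norm_num),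
        mul_zero]
  rw [h2] at h1
  have hM : ∀ x, ENNReal.ofReal (y / (|x - z| + y)) ≤
      Mx volume ((Ioo (z - y) (z + y)).indicator (fun _ => (1 : ℝ≥0∞))) x := by
    intro x
    have hρ : 0 < |x - z| + y := by positivity
    have hx : x ∈ Ioo (z - (|x - z| + y)) (z + (|x - z| + y)) := by
      constructor <;> cases abs_cases (x - z) <;> linarith
    refine le_trans (le_of_eq ?_) (le_Mx volume _ hx)
    rw [lintegral_indicator measurableSet_Ioo, setLIntegral_one, Measure.restrict_apply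
      measurableSet_Ioo, Real.volume_Ioo]
    have hsub : Ioo (z - y) (z + y) ∩ Ioo (z - (|x - z| + y)) (z + (|x - z| + y)) =
        Ioo (z - y) (z + y) := by
      apply inter_eq_left.2
      apply Ioo_subset_Ioo <;> linarith [abs_nonneg (x - z)]
    rw [hsub, Real.volume_Ioo, ← ENNReal.ofReal_div_of_pos (by linarith)]
    congr 1
    rw [show z + (|x - z| + y) - (z - (|x - z| + y)) = 2 * (|x - z| + y) by ring,
      show z + y - (z - y) = 2 * y by ring, mul_div_mul_left _ _ (by norm_num)]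
  calc PL w z y ≤ ∫⁻ x, ENNReal.ofReal (1 / y) * (w x *
        (Mx volume ((Ioo (z - y) (z + y)).indicator (fun _ => (1 : ℝ≥0∞))) x) ^ (2 : ℝ)) := by
        unfold PL
        refine lintegral_mono fun x => ?_
        simp only
        rw [mul_left_comm, mul_comm _ (w x)]
        gcongr
        calc ENNReal.ofReal (y / (Real.pi * ((z - x) ^ 2 + y ^ 2)))
            ≤ ENNReal.ofReal (1 / y) * (ENNReal.ofReal (y / (|x - z| + y))) ^ (2 : ℝ) := by
              rw [ENNReal.ofReal_rpow_of_nonneg (by positivity) (by norm_num),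
                ← ENNReal.ofReal_mul (by positivity)]
              apply ENNReal.ofReal_le_ofReal
              have hpi : 3 < Real.pi := Real.pi_gt_three
              have h3 : (y / (|x - z| + y)) ^ (2 : ℝ) = y ^ 2 / (|x - z| + y) ^ 2 := by
                rw [Real.rpow_two, div_pow]
              have h7 : 1 / y * (y ^ 2 / (|x - z| + y) ^ 2) = y / (|x - z| + y) ^ 2 := by
                field_simp
              rw [h3, h7, div_le_div_iff₀ (by positivity) (by positivity)]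
              have h4 : (|x - z| + y) ^ 2 ≤ 2 * ((z - x) ^ 2 + y ^ 2) := by
                have h5 : |x - z| ^ 2 = (z - x) ^ 2 := by rw [sq_abs]; ring
                nlinarith [sq_nonneg (|x - z| - y)]
              have h6 : 0 ≤ (z - x) ^ 2 + y ^ 2 := by positivity
              have h8 : (|x - z| + y) ^ 2 ≤ Real.pi * ((z - x) ^ 2 + y ^ 2) := by nlinarith
              exact mul_le_mul_of_nonneg_left h8 hy.le
          _ ≤ _ := by gcongr; exact hM x
    _ = ENNReal.ofReal (1 / y) * ∫⁻ x, (w x *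
        (Mx volume ((Ioo (z - y) (z + y)).indicator (fun _ => (1 : ℝ≥0∞))) x) ^ (2 : ℝ)) :=
        lintegral_const_mul' _ _ ENNReal.ofReal_ne_top
    _ ≤ ENNReal.ofReal (1 / y) * (Kmuck 2 B * ∫⁻ x in Ioo (z - y) (z + y), w x) := by gcongr
    _ = _ := by ring

/-- The Poisson averages dominate averages over intervals. -/
theorem le_PL (w : ℝ → ℝ≥0∞) (z : ℝ) {y : ℝ} (hy : 0 < y) :
    ∫⁻ x in Ioo (z - y) (z + y), w x ≤ ENNReal.ofReal (2 * Real.pi * y) * PL w z y := by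
  unfold PL
  rw [← lintegral_const_mul' _ _ ENNReal.ofReal_ne_top, ← lintegral_indicator measurableSet_Ioo]
  refine lintegral_mono fun x => ?_
  by_cases hx : x ∈ Ioo (z - y) (z + y)
  · rw [indicator_of_mem hx, ← mul_assoc, ← ENNReal.ofReal_mul (by positivity)]
    have h1 : (1 : ℝ) ≤ 2 * Real.pi * y * (y / (Real.pi * ((z - x) ^ 2 + y ^ 2))) := by
      have h2 : (z - x) ^ 2 ≤ y ^ 2 := by
        rw [sq_le_sq, abs_of_pos hy, abs_le]
        constructor <;> linarith [hx.1, hx.2]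
      have hpi : 0 < Real.pi := Real.pi_pos
      rw [← mul_div_assoc, one_le_div (by positivity)]
      nlinarith [mul_le_mul_of_nonneg_left h2 hpi.le]
    calc w x = 1 * w x := (one_mul _).symm
      _ ≤ _ := by
        gcongr
        rw [← ENNReal.ofReal_one]
        exact ENNReal.ofReal_le_ofReal h1
  · rw [indicator_of_notMem hx]; exact zero_le

end Pool.Agent.H55.MP842
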