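import Pool.Agent.H24.MP842.Defs

/-!
# The condition `B_r` improves itself

For a weight `U` on `ℝ` we prove that the Muckenhoupt and Wheeden condition `B_r` self-improves:
`U ∈ B_r` implies `U ∈ B_q` for some `q < r`.
-/

set_option autoImplicit false

open MeasureTheory Set
open scoped ENNReal NNReal

namespace Pool.Agent.H55.MP842.Gap

open Pool.Agent.H24.MP842 (IsWeight MemA MemB)

/-- The kernel `R^r / (R^r + |x-c|^r)`. -/
noncomputable def ker (r c R x : ℝ) : ℝ := R ^ r / (R ^ r + |x - c| ^ r)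

/-- The integral of `U` against the kernel. -/
noncomputable def P (r : ℝ) (U : ℝ → ℝ) (c R : ℝ) : ℝ≥0∞ :=
  ∫⁻ x, ENNReal.ofReal (U x) * ENNReal.ofReal (ker r c R x)

/-- The mass of the interval of length `R` centred at `c`. -/
noncomputable def m (U : ℝ → ℝ) (c R : ℝ) : ℝ≥0∞ :=
  ∫⁻ x in Icc (c - R / 2) (c + R / 2), ENNReal.ofReal (U x)

lemma ker_nonneg (r c x : ℝ) {R : ℝ} (hR : 0 < R) : 0 ≤ ker r c R x := by
  unfold ker; positivity

lemma key_identity (r c x : ℝ) {R u : ℝ} (hR : 0 < R) (hu : 0 ≤ u) :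
    ENNReal.ofReal (R ^ (r - 1) * u / (R ^ r + |x - c| ^ r)) =
      ENNReal.ofReal (1 / R) * (ENNReal.ofReal u * ENNReal.ofReal (ker r c R x)) := by
  rw [← ENNReal.ofReal_mul hu, ← ENNReal.ofReal_mul (by positivity)]
  congr 1
  unfold ker
  rw [Real.rpow_sub_one hR.ne']
  field_simp

lemma memB_iff (r : ℝ) {U : ℝ → ℝ} (hU : IsWeight U) :
    MemB r U ↔ ∃ C : ℝ≥0, ∀ c R : ℝ, 0 < R → P r U c R ≤ C * m U c R := by
  have hconv : ∀ (C : ℝ≥0) (c R : ℝ), 0 < R →
      ((∫⁻ x, ENNReal.ofReal (R ^ (r - 1) * U x / (R ^ r + |x - c| ^ r))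
      ≤ ENNReal.ofReal (C / R) * m U c R) ↔ P r U c R ≤ C * m U c R) := by
    intro C c R hR
    have e1 : ∫⁻ x, ENNReal.ofReal (R ^ (r - 1) * U x / (R ^ r + |x - c| ^ r))
        = ENNReal.ofReal (1 / R) * P r U c R := by
      unfold P
      rw [← lintegral_const_mul' _ _ ENNReal.ofReal_ne_top]
      exact lintegral_congr fun x => key_identity r c x hR (hU.1 x)
    have e2 : ENNReal.ofReal (C / R) * m U c R = ENNReal.ofReal (1 / R) * (C * m U c R) := by
      rw [← mul_assoc]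
      congr 1
      rw [div_eq_mul_one_div, mul_comm, ENNReal.ofReal_mul (by positivity), ENNReal.ofReal_coe_nnreal]
    rw [e1, e2]
    have h0 : ENNReal.ofReal (1 / R) ≠ 0 := by
      simp only [ne_eq, ENNReal.ofReal_eq_zero, not_le]; positivity
    exact ENNReal.mul_le_mul_iff_right h0 ENNReal.ofReal_ne_top
  constructor
  · rintro ⟨C, hC⟩
    refine ⟨C, fun c R hR => ?_⟩
    rw [← hconv C c R hR]
    have := hC (c - R / 2) (c + R / 2) (by linarith)
    have e1 : c + R / 2 - (c - R / 2) = R := by ring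
    have e2 : (c - R / 2 + (c + R / 2)) / 2 = c := by ring
    rw [e1, e2] at this
    exact this
  · rintro ⟨C, hC⟩
    refine ⟨C, fun a b hab => ?_⟩
    have := (hconv C ((a + b) / 2) (b - a) (by linarith)).2 (hC _ _ (by linarith))
    unfold m at this
    have e1 : (a + b) / 2 - (b - a) / 2 = a := by ring
    have e2 : (a + b) / 2 + (b - a) / 2 = b := by ring
    rw [e1, e2] at this
    exact this

lemma measU {U : ℝ → ℝ} (hU : IsWeight U) : AEMeasurable (fun x => ENNReal.ofReal (U x)) volume :=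
  hU.2.aestronglyMeasurable.aemeasurable.ennreal_ofReal

lemma meas_ker (r c R : ℝ) : Measurable (fun x => ENNReal.ofReal (ker r c R x)) := by
  unfold ker
  apply Measurable.ennreal_ofReal
  fun_prop

lemma m_lt_top {U : ℝ → ℝ} (hU : IsWeight U) (c R : ℝ) : m U c R < ∞ := by
  have h1 : IntegrableOn U (Icc (c - R / 2) (c + R / 2)) volume :=
    hU.2.integrableOn_isCompact isCompact_Icc
  have h2 := h1.2
  unfold m
  have h3 : ∀ x, ENNReal.ofReal (U x) = ‖U x‖ₑ := by
    intro x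
    rw [Real.enorm_eq_ofReal (hU.1 x)]
  simp_rw [h3]
  exact h2

/-- One step of decay. -/
lemma step {r : ℝ} (hr : 1 ≤ r) {U : ℝ → ℝ} (hU : IsWeight U) (c : ℝ) {R : ℝ} (hR : 0 < R) :
    ENNReal.ofReal ((2 : ℝ) ^ (-r)) * P r U c (2 * R) + ENNReal.ofReal (1 / 8) * m U c R
      ≤ P r U c R := by
  have e1 : ENNReal.ofReal ((2 : ℝ) ^ (-r)) * P r U c (2 * R) =
      ∫⁻ x, ENNReal.ofReal (U x) * ENNReal.ofReal ((2 : ℝ) ^ (-r) * ker r c (2 * R) x) := by
    unfold P
    rw [← lintegral_const_mul' _ _ ENNReal.ofReal_ne_top]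
    refine lintegral_congr fun x => ?_
    rw [ENNReal.ofReal_mul (by positivity)]
    ring
  have e2 : ENNReal.ofReal (1 / 8) * m U c R =
      ∫⁻ x, ENNReal.ofReal (U x) * ENNReal.ofReal
        ((Icc (c - R / 2) (c + R / 2)).indicator (fun _ => (1 / 8 : ℝ)) x) := by
    unfold m
    rw [← lintegral_const_mul' _ _ ENNReal.ofReal_ne_top,
      ← lintegral_indicator measurableSet_Icc]
    refine lintegral_congr fun x => ?_
    by_cases hx : x ∈ Icc (c - R / 2) (c + R / 2)
    · rw [indicator_of_mem hx, indicator_of_mem hx, mul_comm]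
    · rw [indicator_of_notMem hx, indicator_of_notMem hx]; simp
  rw [e1, e2, ← lintegral_add_left']
  swap
  · apply (measU hU).mul
    apply Measurable.aemeasurable
    apply Measurable.ennreal_ofReal
    unfold ker
    fun_prop
  unfold P
  refine lintegral_mono fun x => ?_
  simp only
  rw [← mul_add]
  gcongr
  rw [← ENNReal.ofReal_add]
  rotate_left
  · exact mul_nonneg (by positivity) (ker_nonneg r c x (by positivity))
  · exact indicator_nonneg (fun _ _ => by norm_num) _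
  apply ENNReal.ofReal_le_ofReal
  unfold ker
  have hA : 0 < R ^ r := by positivity
  have h2r : (2 : ℝ) ≤ 2 ^ r := by
    calc (2 : ℝ) = 2 ^ (1 : ℝ) := by simp
      _ ≤ 2 ^ r := Real.rpow_le_rpow_of_exponent_le (by norm_num) hr
  have hB : (2 * R) ^ r = 2 ^ r * R ^ r := Real.mul_rpow (by norm_num) hR.le
  have h2neg : (2 : ℝ) ^ (-r) = (2 ^ r)⁻¹ := Real.rpow_neg (by norm_num) r
  rw [hB, h2neg]
  set A := R ^ r with hAdef
  set K := (2 : ℝ) ^ r with hK
  have hT0 : 0 ≤ |x - c| ^ r := by positivity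
  have hKA : 2 * A ≤ K * A := by nlinarith
  have e3 : K⁻¹ * (K * A / (K * A + |x - c| ^ r)) = A / (K * A + |x - c| ^ r) := by
    field_simp
  rw [e3]
  by_cases hx : x ∈ Icc (c - R / 2) (c + R / 2)
  · rw [indicator_of_mem hx]
    have hxc : |x - c| ≤ R := by
      rw [abs_le]; constructor <;> linarith [hx.1, hx.2]
    have hTA : |x - c| ^ r ≤ A := Real.rpow_le_rpow (abs_nonneg _) hxc (by linarith)
    set T := |x - c| ^ r with hT
    rw [div_add' _ _ _ (by positivity), div_le_div_iff₀ (by positivity) (by positivity)]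
    -- (A + 1/8 (KA+T)) (A+T) ≤ A (KA+T)
    nlinarith [mul_nonneg hT0 hA.le, mul_nonneg hT0 hT0, mul_pos hA hA,
      mul_nonneg (sub_nonneg.2 hTA) hA.le, mul_nonneg (sub_nonneg.2 hTA) hT0,
      mul_nonneg (sub_nonneg.2 hKA) hA.le, mul_nonneg (sub_nonneg.2 hKA) (sub_nonneg.2 hTA)]
  · rw [indicator_of_notMem hx, add_zero]
    apply div_le_div_of_nonneg_left hA.le (by positivity)
    nlinarith

lemma decay {r : ℝ} (hr : 1 ≤ r) {U : ℝ → ℝ} (hU : IsWeight U) {C : ℝ≥0}
    (hC : ∀ c R : ℝ, 0 < R → P r U c R ≤ C * m U c R) :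
    ∃ θ : ℝ, 0 < θ ∧ θ < 1 ∧ ∀ (c R : ℝ), 0 < R → ∀ k : ℕ,
      P r U c (2 ^ k * R) ≤ ENNReal.ofReal ((2 ^ r * θ) ^ k) * P r U c R := by
  set D : ℝ := max C 1 with hD
  have hD1 : 1 ≤ D := le_max_right _ _
  have hCD : (C : ℝ) ≤ D := le_max_left _ _
  set η : ℝ := 1 / (8 * D) with hη
  have hη0 : 0 < η := by positivity
  have hη1 : η ≤ 1 / 8 := by
    rw [hη]; apply div_le_div_of_nonneg_left (by norm_num) (by norm_num); linarith
  have hPfin : ∀ c R : ℝ, 0 < R → P r U c R < ∞ := fun c R hR =>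
    lt_of_le_of_lt (hC c R hR) (ENNReal.mul_lt_top ENNReal.coe_lt_top (m_lt_top hU c R))
  have hone : ∀ c R : ℝ, 0 < R →
      P r U c (2 * R) ≤ ENNReal.ofReal (2 ^ r * (1 - η)) * P r U c R := by
    intro c R hR
    have h1 := step hr hU c hR
    have h2 : ENNReal.ofReal η * P r U c R ≤ ENNReal.ofReal (1 / 8) * m U c R := by
      calc ENNReal.ofReal η * P r U c R ≤ ENNReal.ofReal η * (C * m U c R) := by
            gcongr; exact hC c R hR
        _ = ENNReal.ofReal (η * C) * m U c R := by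
            rw [ENNReal.ofReal_mul hη0.le, ENNReal.ofReal_coe_nnreal, mul_assoc]
        _ ≤ ENNReal.ofReal (1 / 8) * m U c R := by
            gcongr
            rw [hη, div_mul_eq_mul_div, one_mul, div_le_div_iff₀ (by positivity) (by norm_num)]
            linarith
    have h3 : ENNReal.ofReal ((2 : ℝ) ^ (-r)) * P r U c (2 * R) + ENNReal.ofReal η * P r U c R
        ≤ P r U c R := le_trans (by gcongr) h1
    have h4 : ENNReal.ofReal ((2 : ℝ) ^ (-r)) * P r U c (2 * R) ≤
        ENNReal.ofReal (1 - η) * P r U c R := by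
      have h5 : ENNReal.ofReal ((2 : ℝ) ^ (-r)) * P r U c (2 * R) ≤
        P r U c R - ENNReal.ofReal η * P r U c R := ENNReal.le_sub_of_add_le_right
          (ENNReal.mul_lt_top ENNReal.ofReal_lt_top (hPfin c R hR)).ne h3
      refine h5.trans (le_of_eq ?_)
      rw [ENNReal.ofReal_sub _ hη0.le, ENNReal.ofReal_one, ENNReal.sub_mul, one_mul]
      intro _ _; exact (hPfin c R hR).ne
    have h6 : P r U c (2 * R) = ENNReal.ofReal ((2 : ℝ) ^ r) *
        (ENNReal.ofReal ((2 : ℝ) ^ (-r)) * P r U c (2 * R)) := by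
      rw [← mul_assoc, ← ENNReal.ofReal_mul (by positivity), ← Real.rpow_add (by norm_num)]
      simp
    rw [h6, ENNReal.ofReal_mul (by positivity), mul_assoc]
    gcongr
  refine ⟨1 - η, by linarith, by linarith, ?_⟩
  intro c R hR k
  induction k with
  | zero => simp
  | succ k ih =>
    have h1 := hone c (2 ^ k * R) (by positivity)
    have e1 : (2 : ℝ) ^ (k + 1) * R = 2 * (2 ^ k * R) := by ring
    rw [e1]
    refine h1.trans ?_
    have hnn : 0 ≤ (2 : ℝ) ^ r * (1 - η) := by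
      apply mul_nonneg (by positivity); linarith
    calc ENNReal.ofReal (2 ^ r * (1 - η)) * P r U c (2 ^ k * R)
        ≤ ENNReal.ofReal (2 ^ r * (1 - η)) *
          (ENNReal.ofReal ((2 ^ r * (1 - η)) ^ k) * P r U c R) := by gcongr
      _ = ENNReal.ofReal ((2 ^ r * (1 - η)) ^ (k + 1)) * P r U c R := by
          rw [← mul_assoc, ← ENNReal.ofReal_mul hnn, pow_succ, mul_comm ((2 ^ r * (1 - η)) ^ k)]

/-- Pointwise domination of the `q`-kernel by `r`-kernels. -/
lemma pointwise {q r : ℝ} (hq : 0 < q) (hr : 0 < r) (c x : ℝ) {R : ℝ} (hR : 0 < R) :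
    ∃ k : ℕ, ker q c R x ≤ 2 ^ (q + 1) * ((2 : ℝ) ^ (-q)) ^ k * ker r c (2 ^ k * R) x := by
  by_cases hx : |x - c| ≤ R
  · refine ⟨0, ?_⟩
    simp only [pow_zero, mul_one, one_mul]
    have h1 : ker q c R x ≤ 1 := by
      unfold ker
      rw [div_le_one (by positivity)]
      have : 0 ≤ |x - c| ^ q := by positivity
      linarith
    have h2 : 1 / 2 ≤ ker r c R x := by
      unfold ker
      rw [div_le_div_iff₀ (by norm_num) (by positivity)]
      have : |x - c| ^ r ≤ R ^ r := Real.rpow_le_rpow (abs_nonneg _) hx hr.le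
      linarith
    have h3 : (2 : ℝ) ≤ 2 ^ (q + 1) := by
      calc (2 : ℝ) = 2 ^ (1 : ℝ) := by simp
        _ ≤ 2 ^ (q + 1) := Real.rpow_le_rpow_of_exponent_le (by norm_num) (by linarith)
    nlinarith
  · push Not at hx
    obtain ⟨k, hk1, hk2⟩ : ∃ k : ℕ, |x - c| ≤ 2 ^ (k + 1) * R ∧ 2 ^ k * R < |x - c| := by
      have hex : ∃ n : ℕ, |x - c| / R ≤ 2 ^ n := by
        obtain ⟨n, hn⟩ := pow_unbounded_of_one_lt (|x - c| / R) (one_lt_two)
        exact ⟨n, hn.le⟩
      classical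
      set n := Nat.find hex with hn
      have hn1 : |x - c| / R ≤ 2 ^ n := Nat.find_spec hex
      have hn0 : n ≠ 0 := by
        intro h0
        rw [h0, pow_zero, div_le_one hR] at hn1
        linarith
      obtain ⟨k, hk⟩ := Nat.exists_eq_succ_of_ne_zero hn0
      refine ⟨k, ?_, ?_⟩
      · rw [hk, div_le_iff₀ hR] at hn1
        exact hn1
      · have : ¬ (|x - c| / R ≤ 2 ^ k) := Nat.find_min hex (by omega)
        rw [div_le_iff₀ hR] at this
        push Not at this
        exact this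
    refine ⟨k + 1, ?_⟩
    have hxc : 0 < |x - c| := lt_of_lt_of_le hR hx.le
    -- left side
    have h1 : ker q c R x ≤ ((2 : ℝ) ^ (-q)) ^ k := by
      unfold ker
      have h2 : R ^ q / (R ^ q + |x - c| ^ q) ≤ R ^ q / (2 ^ k * R) ^ q := by
        apply div_le_div_of_nonneg_left (by positivity) (by positivity)
        have : (2 ^ k * R) ^ q ≤ |x - c| ^ q :=
          Real.rpow_le_rpow (by positivity) hk2.le hq.le
        have : 0 ≤ R ^ q := by positivity
        linarith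
      refine h2.trans (le_of_eq ?_)
      rw [Real.mul_rpow (by positivity) hR.le]
      have h3 : ((2 : ℝ) ^ k) ^ q = ((2 : ℝ) ^ q) ^ k := by
        rw [← Real.rpow_natCast, ← Real.rpow_mul (by norm_num), mul_comm,
          Real.rpow_mul (by norm_num), Real.rpow_natCast]
      rw [h3, Real.rpow_neg (by norm_num), inv_pow]
      have : R ^ q ≠ 0 := by positivity
      field_simp
    -- right side
    have h2 : 1 / 2 ≤ ker r c (2 ^ (k + 1) * R) x := by
      unfold ker
      rw [div_le_div_iff₀ (by norm_num) (by positivity)]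
      have : |x - c| ^ r ≤ (2 ^ (k + 1) * R) ^ r := Real.rpow_le_rpow (abs_nonneg _) hk1 hr.le
      linarith
    have e2 : (2 : ℝ) ^ (q + 1) * ((2 : ℝ) ^ (-q)) ^ (k + 1) = 2 * ((2 : ℝ) ^ (-q)) ^ k := by
      rw [pow_succ, Real.rpow_add (by norm_num), Real.rpow_one]
      have : (2 : ℝ) ^ q * (2 : ℝ) ^ (-q) = 1 := by
        rw [← Real.rpow_add (by norm_num)]; simp
      calc (2 : ℝ) ^ q * 2 * (((2 : ℝ) ^ (-q)) ^ k * (2 : ℝ) ^ (-q))
          = ((2 : ℝ) ^ q * (2 : ℝ) ^ (-q)) * 2 * ((2 : ℝ) ^ (-q)) ^ k := by ring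
        _ = 2 * ((2 : ℝ) ^ (-q)) ^ k := by rw [this]; ring
    rw [e2]
    have h5 : 0 < ((2 : ℝ) ^ (-q)) ^ k := by positivity
    nlinarith

/-- Self-improvement of `B_r`. -/
theorem self_improve {r : ℝ} (hr : 1 < r) {U : ℝ → ℝ} (hU : IsWeight U) (h : MemB r U) :
    ∃ q : ℝ, 1 < q ∧ q < r ∧ MemB q U := by
  rw [memB_iff r hU] at h
  obtain ⟨C, hC⟩ := h
  obtain ⟨θ, hθ0, hθ1, hdec⟩ := decay hr.le hU hC
  -- choose q
  have hlim : Filter.Tendsto (fun q : ℝ => (2 : ℝ) ^ (r - q) * θ) (nhds r) (nhds (2 ^ (r - r) * θ)) := by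
    apply Filter.Tendsto.mul_const
    exact ((Real.continuous_const_rpow (by norm_num : (2 : ℝ) ≠ 0)).comp
      (continuous_const.sub continuous_id)).tendsto r
  have hlim2 : (2 : ℝ) ^ (r - r) * θ < 1 := by simpa using hθ1
  have hev : ∀ᶠ q in nhdsWithin r (Iio r), (2 : ℝ) ^ (r - q) * θ < 1 ∧ 1 < q ∧ q < r := by
    have h1 : ∀ᶠ q in nhdsWithin r (Iio r), (2 : ℝ) ^ (r - q) * θ < 1 :=
      (hlim.eventually (gt_mem_nhds hlim2)).filter_mono nhdsWithin_le_nhds
    have h2 : ∀ᶠ q in nhdsWithin r (Iio r), 1 < q :=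
      (lt_mem_nhds hr).filter_mono nhdsWithin_le_nhds
    have h3 : ∀ᶠ q in nhdsWithin r (Iio r), q < r := self_mem_nhdsWithin
    filter_upwards [h1, h2, h3] with q a b c using ⟨a, b, c⟩
  obtain ⟨q, hq1, hq2, hq3⟩ := hev.exists
  refine ⟨q, hq2, hq3, ?_⟩
  rw [memB_iff q hU]
  set ρ : ℝ := (2 : ℝ) ^ (r - q) * θ with hρ
  have hρ0 : 0 ≤ ρ := by positivity
  -- the constant
  have hgeo : ENNReal.ofReal (2 ^ (q + 1)) * (1 - ENNReal.ofReal ρ)⁻¹ * C ≠ ∞ := by
    apply ENNReal.mul_ne_top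
    · apply ENNReal.mul_ne_top ENNReal.ofReal_ne_top
      rw [ne_eq, ENNReal.inv_eq_top, tsub_eq_zero_iff_le, not_le]
      rw [← ENNReal.ofReal_one]
      exact (ENNReal.ofReal_lt_ofReal_iff (by norm_num)).2 hq1
    · exact ENNReal.coe_ne_top
  refine ⟨(ENNReal.ofReal (2 ^ (q + 1)) * (1 - ENNReal.ofReal ρ)⁻¹ * C).toNNReal, ?_⟩
  intro c R hR
  rw [ENNReal.coe_toNNReal hgeo]
  have hpt : ∀ x, ENNReal.ofReal (U x) * ENNReal.ofReal (ker q c R x) ≤
      ∑' k : ℕ, ENNReal.ofReal (2 ^ (q + 1) * ((2 : ℝ) ^ (-q)) ^ k) *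
        (ENNReal.ofReal (U x) * ENNReal.ofReal (ker r c (2 ^ k * R) x)) := by
    intro x
    obtain ⟨k, hk⟩ := pointwise (q := q) (r := r) (by linarith) (by linarith) c x hR
    refine le_trans ?_ (ENNReal.le_tsum k)
    rw [mul_left_comm]
    gcongr
    rw [← ENNReal.ofReal_mul (by positivity)]
    exact ENNReal.ofReal_le_ofReal hk
  calc P q U c R ≤ ∫⁻ x, ∑' k : ℕ, ENNReal.ofReal (2 ^ (q + 1) * ((2 : ℝ) ^ (-q)) ^ k) *
        (ENNReal.ofReal (U x) * ENNReal.ofReal (ker r c (2 ^ k * R) x)) := lintegral_mono hpt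
    _ = ∑' k : ℕ, ENNReal.ofReal (2 ^ (q + 1) * ((2 : ℝ) ^ (-q)) ^ k) * P r U c (2 ^ k * R) := by
        rw [lintegral_tsum]
        · refine tsum_congr fun k => ?_
          unfold P
          rw [lintegral_const_mul' _ _ ENNReal.ofReal_ne_top]
        · intro k
          exact ((measU hU).mul (meas_ker r c _).aemeasurable).const_mul _
    _ ≤ ∑' k : ℕ, ENNReal.ofReal (2 ^ (q + 1)) * (ENNReal.ofReal ρ) ^ k * P r U c R := by
        refine ENNReal.tsum_le_tsum fun k => ?_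
        refine (mul_le_mul_right (hdec c R hR k) _).trans (le_of_eq ?_)
        rw [← mul_assoc, ← ENNReal.ofReal_mul (by positivity), ← ENNReal.ofReal_pow hρ0,
          ← ENNReal.ofReal_mul (by positivity)]
        congr 2
        rw [mul_assoc, ← mul_pow]
        congr 2
        rw [hρ, ← mul_assoc, ← Real.rpow_add (by norm_num)]
        congr 2
        ring
    _ = ENNReal.ofReal (2 ^ (q + 1)) * (1 - ENNReal.ofReal ρ)⁻¹ * P r U c R := by
        rw [ENNReal.tsum_mul_right, ENNReal.tsum_mul_left, ENNReal.tsum_geometric]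
    _ ≤ ENNReal.ofReal (2 ^ (q + 1)) * (1 - ENNReal.ofReal ρ)⁻¹ * C * m U c R := by
        rw [mul_assoc _ (C : ℝ≥0∞)]
        gcongr
        exact hC c R hR

/-- Monotonicity of the classes `B_q`. -/
theorem memB_mono {q r : ℝ} (hq : 0 < q) (hqr : q ≤ r) {U : ℝ → ℝ} (hU : IsWeight U)
    (h : MemB q U) : MemB r U := by
  rw [memB_iff q hU] at h
  rw [memB_iff r hU]
  obtain ⟨C, hC⟩ := h
  refine ⟨2 * C, fun c R hR => ?_⟩
  have hpt : ∀ x, ker r c R x ≤ 2 * ker q c R x := by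
    intro x
    unfold ker
    rw [← mul_div_assoc, div_le_div_iff₀ (by positivity) (by positivity)]
    have hRr : 0 < R ^ r := by positivity
    have hRq : 0 < R ^ q := by positivity
    have hTr : 0 ≤ |x - c| ^ r := by positivity
    have hTq : 0 ≤ |x - c| ^ q := by positivity
    -- R^r (R^q + T^q) ≤ 2 R^q (R^r + T^r)
    by_cases hx : |x - c| ≤ R
    · have : |x - c| ^ q ≤ R ^ q := Real.rpow_le_rpow (abs_nonneg _) hx hq.le
      nlinarith [mul_nonneg hRr.le (sub_nonneg.2 this), mul_nonneg hRq.le hTr]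
    · push Not at hx
      have hT : 0 < |x - c| := lt_trans hR hx
      have h1 : R ^ r * |x - c| ^ q ≤ R ^ q * |x - c| ^ r := by
        have e1 : R ^ r = R ^ q * R ^ (r - q) := by
          rw [← Real.rpow_add hR]; congr 1; ring
        have e2 : |x - c| ^ r = |x - c| ^ q * |x - c| ^ (r - q) := by
          rw [← Real.rpow_add hT]; congr 1; ring
        have h2 : R ^ (r - q) ≤ |x - c| ^ (r - q) :=
          Real.rpow_le_rpow hR.le hx.le (by linarith)
        rw [e1, e2]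
        have h3 : 0 ≤ R ^ q * |x - c| ^ q := by positivity
        nlinarith [mul_nonneg h3 (sub_nonneg.2 h2)]
      nlinarith [mul_nonneg hRq.le hTr, mul_pos hRr hRq]
  calc P r U c R ≤ ∫⁻ x, 2 * (ENNReal.ofReal (U x) * ENNReal.ofReal (ker q c R x)) := by
        refine lintegral_mono fun x => ?_
        simp only
        rw [mul_left_comm]
        gcongr
        have : (2 : ℝ≥0∞) = ENNReal.ofReal 2 := by norm_num
        rw [this, ← ENNReal.ofReal_mul (by norm_num)]
        exact ENNReal.ofReal_le_ofReal (hpt x)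
    _ = 2 * P q U c R := by
        unfold P
        rw [lintegral_const_mul' _ _ (by norm_num)]
    _ ≤ 2 * (C * m U c R) := by gcongr; exact hC c R hR
    _ = ((2 * C : ℝ≥0) : ℝ≥0∞) * m U c R := by
        rw [ENNReal.coe_mul, mul_assoc]; norm_cast

/-- For `1 < λ ≤ 2` and `2/λ < p < 2`, the known necessary condition `U ∈ A_p ∩ B_{λp/2}` for the
weighted `g_λ^*` inequality and the known sufficient condition `U ∈ A_p ∩ B_q` for some
`1 < q < min (λp/2) λ` are equivalent. -/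
theorem gap_closed (lam p : ℝ) (hlam1 : 1 < lam) (_hlam2 : lam ≤ 2) (hp1 : 2 / lam < p) (hp2 : p < 2)
    (U : ℝ → ℝ) (hU : IsWeight U) :
    (MemA p U ∧ MemB (lam * p / 2) U) ↔
      (MemA p U ∧ ∃ q : ℝ, 1 < q ∧ q < min (lam * p / 2) lam ∧ MemB q U) := by
  have hlam0 : 0 < lam := by linarith
  have h1 : 1 < lam * p / 2 := by
    rw [div_lt_iff₀ hlam0] at hp1
    rw [lt_div_iff₀ (by norm_num)]
    linarith
  have h2 : lam * p / 2 < lam := by
    rw [div_lt_iff₀ (by norm_num)]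
    nlinarith
  constructor
  · rintro ⟨hA, hB⟩
    refine ⟨hA, ?_⟩
    obtain ⟨q, hq1, hq2, hq3⟩ := self_improve h1 hU hB
    exact ⟨q, hq1, lt_min hq2 (hq2.trans h2), hq3⟩
  · rintro ⟨hA, q, hq1, hq2, hq3⟩
    exact ⟨hA, memB_mono (by linarith) (hq2.le.trans (min_le_left _ _)) hU hq3⟩

end Pool.Agent.H55.MP842.Gap
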