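import Pool.Agent.H55.MP842.A2

/-!
# From the weighted area estimate to the `g_λ^*` estimate
-/

set_option autoImplicit false

open MeasureTheory Set Filter
open scoped ENNReal NNReal

namespace Pool.Agent.H55.MP842

/-- Average of `R` over `(z - y, z + y)`. -/
noncomputable def avg (R : ℝ → ℝ≥0∞) (z y : ℝ) : ℝ≥0∞ :=
  (∫⁻ x in Ioo (z - y) (z + y), R x) / ENNReal.ofReal (2 * y)

/-- The kernel `(y/(|x-z|+y))^a`. -/
noncomputable def kr (a x z y : ℝ) : ℝ≥0∞ := ENNReal.ofReal ((y / (|x - z| + y)) ^ a)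

lemma measurable_avg {R : ℝ → ℝ≥0∞} (hR : Measurable R) :
    Measurable (fun q : ℝ × ℝ => avg R q.1 q.2) := by
  unfold avg
  refine Measurable.div ?_ (by fun_prop)
  have h1 : (fun q : ℝ × ℝ => ∫⁻ x in Ioo (q.1 - q.2) (q.1 + q.2), R x) =
      fun q : ℝ × ℝ => ∫⁻ x, {r : (ℝ × ℝ) × ℝ | r.1.1 - r.1.2 < r.2 ∧
        r.2 < r.1.1 + r.1.2}.indicator (fun r => R r.2) (q, x) := by
    funext q
    rw [← lintegral_indicator measurableSet_Ioo]
    refine lintegral_congr fun x => ?_
    by_cases hx : x ∈ Ioo (q.1 - q.2) (q.1 + q.2)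
    · rw [indicator_of_mem hx]
      exact (indicator_of_mem (s := {r : (ℝ × ℝ) × ℝ | r.1.1 - r.1.2 < r.2 ∧
        r.2 < r.1.1 + r.1.2}) (show (q, x) ∈ _ from hx) (fun r => R r.2)).symm
    · rw [indicator_of_notMem hx]
      exact (indicator_of_notMem (s := {r : (ℝ × ℝ) × ℝ | r.1.1 - r.1.2 < r.2 ∧
        r.2 < r.1.1 + r.1.2}) (show (q, x) ∉ _ from hx) (fun r => R r.2)).symm
  rw [h1]
  apply Measurable.lintegral_prod_right'
  refine Measurable.indicator (hR.comp measurable_snd) ?_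
  exact (measurableSet_lt (f := fun r : (ℝ × ℝ) × ℝ => r.1.1 - r.1.2) (g := fun r => r.2)
    (by fun_prop) (by fun_prop)).inter (measurableSet_lt (f := fun r : (ℝ × ℝ) × ℝ => r.2)
    (g := fun r => r.1.1 + r.1.2) (by fun_prop) (by fun_prop))

lemma measurable_kr (a : ℝ) : Measurable (fun q : ℝ × ℝ × ℝ => kr a q.1 q.2.1 q.2.2) := by
  unfold kr
  fun_prop

variable {p : ℝ} {R u : ℝ → ℝ≥0∞} {D C : ℝ≥0∞}

lemma avg_ne_zero (hR : Maj R D) (z : ℝ) {y : ℝ} (hy : 0 < y) : avg R z y ≠ 0 := by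
  unfold avg
  exact (ENNReal.div_pos (hR.int_ne_zero (by linarith)) ENNReal.ofReal_ne_top).ne'

lemma avg_ne_top (hR : Maj R D) (z : ℝ) {y : ℝ} (hy : 0 < y) : avg R z y ≠ ∞ := by
  unfold avg
  exact ENNReal.div_ne_top (hR.int_ne_top (by linarith)) (by simpa using hy)

lemma avg_le (hR : Maj R D) {z y x : ℝ} (hx : x ∈ Ioo (z - y) (z + y)) :
    avg R z y ≤ D * R x := by
  have := hR.A1 _ _ _ hx
  unfold avg
  rwa [show z + y - (z - y) = 2 * y by ring] at this

/-- Step (7). -/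
lemma step7 (hp : 1 < p) (hp2 : p < 2) (hR : Maj R D) (hu : Ap p u C) (z : ℝ) {y : ℝ}
    (hy : 0 < y) : ((avg R z y) ^ (2 - p))⁻¹ * ∫⁻ x in Ioo (z - y) (z + y), u x ≤
      C * ENNReal.ofReal (2 * Real.pi) * (ENNReal.ofReal y * PL (wt (2 - p) R u) z y) := by
  have hs : 0 < 2 - p := by linarith
  have h1 := le_int_wt hp hp2 hR hu (show z - y < z + y by linarith)
  have h2 := le_PL (wt (2 - p) R u) z hy
  rw [show z + y - (z - y) = 2 * y by ring] at h1
  have hH0 : (avg R z y) ^ (2 - p) ≠ 0 :=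
    (ENNReal.rpow_pos (pos_iff_ne_zero.2 (avg_ne_zero hR z hy)) (avg_ne_top hR z hy)).ne'
  have hH1 : (avg R z y) ^ (2 - p) ≠ ∞ :=
    ENNReal.rpow_ne_top_of_nonneg hs.le (avg_ne_top hR z hy)
  calc ((avg R z y) ^ (2 - p))⁻¹ * ∫⁻ x in Ioo (z - y) (z + y), u x
      ≤ ((avg R z y) ^ (2 - p))⁻¹ * (C * (ENNReal.ofReal (2 * Real.pi * y) *
        PL (wt (2 - p) R u) z y) * (avg R z y) ^ (2 - p)) := by
        gcongr
        exact h1.trans (by unfold avg; gcongr)
    _ = C * (ENNReal.ofReal (2 * Real.pi * y) * PL (wt (2 - p) R u) z y) *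
        (((avg R z y) ^ (2 - p))⁻¹ * (avg R z y) ^ (2 - p)) := by ring
    _ = C * (ENNReal.ofReal (2 * Real.pi * y) * PL (wt (2 - p) R u) z y) := by
        rw [ENNReal.inv_mul_cancel hH0 hH1, mul_one]
    _ = _ := by
        rw [ENNReal.ofReal_mul (by positivity)]; ring

/-- Step (8): the pointwise bound. -/
lemma step8 {q μ : ℝ} (hq : 0 < q) (hμ : 0 < μ) (hR : Maj R D) (hu : Ap p u C) {B : ℝ≥0∞}
    (hB : ∀ z y : ℝ, 0 < y → ∫⁻ x, u x * kr q x z y ≤ B * ∫⁻ x in Ioo (z - y) (z + y), u x)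
    (x z : ℝ) {y : ℝ} (hy : 0 < y) :
    avg R z y * kr μ x z y ≤ (D ^ (q / μ) * (ENNReal.ofReal (2 ^ q) * B) *
      Mx (volume.withDensity u) (fun x => R x ^ (q / μ)) x) ^ (q / μ)⁻¹ := by
  have hr : 0 < q / μ := by positivity
  set r := q / μ with hrdef
  set ρ := |x - z| + y with hρ
  have hρ0 : 0 < ρ := by positivity
  have hyρ : y ≤ ρ := by rw [hρ]; linarith [abs_nonneg (x - z)]
  have hx : x ∈ Ioo (z - ρ) (z + ρ) := by
    constructor <;> cases abs_cases (x - z) <;> linarith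
  rw [ENNReal.le_rpow_inv_iff hr, ENNReal.mul_rpow_of_nonneg _ _ hr.le]
  have e1 : (kr μ x z y) ^ r = kr q x z y := by
    unfold kr
    rw [ENNReal.ofReal_rpow_of_nonneg (by positivity) hr.le, ← Real.rpow_mul (by positivity)]
    congr 2
    rw [hrdef]; field_simp
  rw [e1]
  set I := Ioo (z - y) (z + y) with hI
  set J := Ioo (z - ρ) (z + ρ) with hJ
  set uI := ∫⁻ x in I, u x with huI
  set uJ := ∫⁻ x in J, u x with huJ
  have hIJ : I ⊆ J := Ioo_subset_Ioo (by linarith) (by linarith)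
  have huI1 : uI ≠ ∞ := hu.finU _ _ (by linarith)
  have huI0 : uI ≠ 0 := by
    intro h0
    rw [huI, lintegral_eq_zero_iff hu.meas] at h0
    have h1 : ∀ᵐ x ∂(volume.restrict I), False := by
      filter_upwards [h0, ae_restrict_of_ae hu.ne_zero] with x h2 h3
      exact h3 h2
    rw [ae_iff] at h1
    simp only [not_false_eq_true] at h1
    have h2 : (volume.restrict I) univ = 0 := by simpa using h1
    rw [Measure.restrict_apply_univ, hI, Real.volume_Ioo] at h2
    exact ofReal_sub_ne_zero (by linarith) h2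
  have hRr : Measurable (fun x => R x ^ r) := hR.meas.pow_const _
  set Mr := Mx (volume.withDensity u) (fun x => R x ^ r) x with hMr
  have huJ1 : uJ ≠ ∞ := hu.finU _ _ (by linarith)
  have huJ0 : uJ ≠ 0 := fun h0 => huI0 (le_antisymm (h0 ▸ lintegral_mono_set hIJ) zero_le)
  -- H^r u(I) ≤ D^r u(J) Mr
  have h1 : (avg R z y) ^ r * uI ≤ D ^ r * (uJ * Mr) := by
    calc (avg R z y) ^ r * uI = ∫⁻ x in I, (avg R z y) ^ r * u x := by
          rw [lintegral_const_mul _ hu.meas]
      _ ≤ ∫⁻ x in I, D ^ r * (u x * R x ^ r) := by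
          refine setLIntegral_mono' measurableSet_Ioo fun x hx => ?_
          calc (avg R z y) ^ r * u x ≤ (D * R x) ^ r * u x := by
                gcongr
                exact avg_le hR hx
            _ = _ := by rw [ENNReal.mul_rpow_of_nonneg _ _ hr.le]; ring
      _ = D ^ r * ∫⁻ x in I, u x * R x ^ r := by
          have hm : Measurable (fun x => u x * R x ^ r) := hu.meas.mul hRr
          rw [lintegral_const_mul _ hm]
      _ ≤ D ^ r * ∫⁻ x in J, u x * R x ^ r := by
          gcongr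
      _ ≤ D ^ r * (uJ * Mr) := by
          gcongr
          have h2 := le_Mx (volume.withDensity u) (fun x => R x ^ r) hx
          rw [setLintegral_wd hu.meas hRr measurableSet_Ioo, wd_Ioo,
            ENNReal.div_le_iff huJ0 huJ1, mul_comm] at h2
          exact h2
  have h2 : kr q x z y * uJ ≤ ENNReal.ofReal (2 ^ q) * B * uI := by
    calc kr q x z y * uJ = ∫⁻ x' in J, kr q x z y * u x' := by
          rw [lintegral_const_mul _ hu.meas]
      _ ≤ ∫⁻ x' in J, ENNReal.ofReal (2 ^ q) * (u x' * kr q x' z y) := by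
          refine setLIntegral_mono' measurableSet_Ioo fun x' hx' => ?_
          have h3 : |x' - z| < ρ := by
            rw [abs_lt]; constructor <;> linarith [hx'.1, hx'.2]
          have h4 : kr q x z y ≤ ENNReal.ofReal (2 ^ q) * kr q x' z y := by
            unfold kr
            rw [← ENNReal.ofReal_mul (by positivity), ← Real.mul_rpow (by norm_num)
              (by positivity)]
            apply ENNReal.ofReal_le_ofReal
            apply Real.rpow_le_rpow (by positivity) _ hq.le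
            rw [← hρ, ← mul_div_assoc, div_le_div_iff₀ hρ0 (by positivity)]
            nlinarith
          calc kr q x z y * u x' ≤ ENNReal.ofReal (2 ^ q) * kr q x' z y * u x' := by gcongr
            _ = _ := by ring
      _ ≤ ∫⁻ x', ENNReal.ofReal (2 ^ q) * (u x' * kr q x' z y) := setLIntegral_le_lintegral _ _
      _ = ENNReal.ofReal (2 ^ q) * ∫⁻ x', u x' * kr q x' z y :=
          lintegral_const_mul' _ _ ENNReal.ofReal_ne_top
      _ ≤ ENNReal.ofReal (2 ^ q) * (B * uI) := by gcongr; exact hB z y hy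
      _ = _ := by ring
  have h3 : uI * ((avg R z y) ^ r * kr q x z y) ≤
      uI * (D ^ r * (ENNReal.ofReal (2 ^ q) * B) * Mr) := by
    calc uI * ((avg R z y) ^ r * kr q x z y) = kr q x z y * ((avg R z y) ^ r * uI) := by ring
      _ ≤ kr q x z y * (D ^ r * (uJ * Mr)) := by gcongr
      _ = D ^ r * Mr * (kr q x z y * uJ) := by ring
      _ ≤ D ^ r * Mr * (ENNReal.ofReal (2 ^ q) * B * uI) := by gcongr
      _ = _ := by ring
  exact (ENNReal.mul_le_mul_iff_right huI0 huI1).1 h3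

/-- The measure `dz dy` on the half plane `y > 0`. -/
noncomputable def hp : Measure (ℝ × ℝ) := (volume : Measure ℝ).prod (volume.restrict (Ioi 0))

instance : SFinite hp := by unfold hp; infer_instance

lemma ae_hp_pos : ∀ᵐ q ∂hp, 0 < q.2 := by
  have h1 : ∀ᵐ y ∂(volume.restrict (Ioi (0 : ℝ))), 0 < y := by
    filter_upwards [self_mem_ae_restrict (measurableSet_Ioi (a := (0 : ℝ)))] with y hy using hy
  have h2 := (Measure.quasiMeasurePreserving_snd (μ := (volume : Measure ℝ))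
    (ν := volume.restrict (Ioi (0 : ℝ)))).ae h1
  exact h2

/-- Step (9): the estimate of the `g_λ^*` functional. -/
theorem step9 {l q μ : ℝ} (hp1 : 1 < p) (hp2 : p < 2) (hq : 0 < q) (hμ : 0 < μ)
    (hqμ : q / μ < p) (hl : l = q + μ * (2 - p)) (hR : Maj R D) (hu : Ap p u C) {B : ℝ≥0∞}
    (hCt : C ≠ ∞) (hBt : B ≠ ∞)
    (hB : ∀ z y : ℝ, 0 < y → ∫⁻ x, u x * kr q x z y ≤ B * ∫⁻ x in Ioo (z - y) (z + y), u x)
    {G : ℝ × ℝ → ℝ≥0∞} (hG : Measurable G) {E : ℝ≥0∞}
    (hE : ∫⁻ q, ENNReal.ofReal q.2 * G q * PL (wt (2 - p) R u) q.1 q.2 ∂hp ≤ E) :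
    ∫⁻ x, u x * (∫⁻ q', kr l x q'.1 q'.2 * G q' ∂hp) ^ (p / 2) ≤
      ((D ^ (q / μ) * (ENNReal.ofReal (2 ^ q) * B)) ^ (p / (q / μ)) *
        (ENNReal.ofReal (4 * (p / (q / μ)) / (p / (q / μ) - 1) * 2 ^ (p / (q / μ) - 1)) *
        ∫⁻ x, u x * R x ^ p)) ^ ((2 - p) / 2) *
      (B * (C * ENNReal.ofReal (2 * Real.pi)) * E) ^ (p / 2) := by
  have hs : 0 < 2 - p := by linarith
  have hr : 0 < q / μ := by positivity
  set r := q / μ with hrdef
  have hpr : 1 < p / r := by rw [lt_div_iff₀ hr]; linarith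
  set m := volume.withDensity u with hm
  have : IsLocallyFiniteMeasure m := locFin_of_Ioo fun a b hab => by
    rw [hm, wd_Ioo]; exact hu.finU a b hab
  set K8 := D ^ r * (ENNReal.ofReal (2 ^ q) * B) with hK8
  have hRr : Measurable (fun x => R x ^ r) := hR.meas.pow_const _
  set Mr := Mx m (fun x => R x ^ r) with hMr
  have hMrm : Measurable Mr := measurable_Mx _ _
  set N : ℝ → ℝ≥0∞ := fun x => (K8 * Mr x) ^ r⁻¹ with hN
  have hNm : Measurable N := (hMrm.const_mul _).pow_const _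
  have hkrm : ∀ a : ℝ, Measurable (fun v : ℝ × ℝ × ℝ => kr a v.1 v.2.1 v.2.2) := measurable_kr
  have havg : Measurable (fun q : ℝ × ℝ => ((avg R q.1 q.2) ^ (2 - p))⁻¹) :=
    ((measurable_avg hR.meas).pow_const _).inv
  set T : ℝ → ℝ≥0∞ := fun x => ∫⁻ v, kr q x v.1 v.2 * (((avg R v.1 v.2) ^ (2 - p))⁻¹ * G v) ∂hp
    with hT
  have hjoint : Measurable (fun w : ℝ × (ℝ × ℝ) => kr q w.1 w.2.1 w.2.2 *
      (((avg R w.2.1 w.2.2) ^ (2 - p))⁻¹ * G w.2)) := by
    refine (hkrm q).mul ?_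
    exact ((havg.mul hG).comp measurable_snd)
  have hTm : Measurable T := hjoint.lintegral_prod_right'
  -- pointwise bound
  have hpt : ∀ x, ∫⁻ v, kr l x v.1 v.2 * G v ∂hp ≤ N x ^ (2 - p) * T x := by
    intro x
    rw [hT]
    simp only
    have hm1 : Measurable (fun v : ℝ × ℝ => kr q x v.1 v.2 *
        (((avg R v.1 v.2) ^ (2 - p))⁻¹ * G v)) := hjoint.comp measurable_prodMk_left
    rw [← lintegral_const_mul _ hm1]
    refine lintegral_mono_ae ?_
    filter_upwards [ae_hp_pos] with v hv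
    obtain ⟨z, y⟩ := v
    simp only at hv ⊢
    have hH0 := avg_ne_zero hR z hv
    have hH1 := avg_ne_top hR z hv
    have h8 := step8 hq hμ hR hu hB x z hv
    have e1 : kr l x z y = kr q x z y * (kr μ x z y) ^ (2 - p) := by
      unfold kr
      rw [ENNReal.ofReal_rpow_of_nonneg (by positivity) hs.le,
        ← ENNReal.ofReal_mul (by positivity), ← Real.rpow_mul (by positivity),
        ← Real.rpow_add (by positivity), hl]
    have e2 : (kr μ x z y) ^ (2 - p) ≤ N x ^ (2 - p) * ((avg R z y) ^ (2 - p))⁻¹ := by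
      rw [← ENNReal.inv_rpow, ← ENNReal.mul_rpow_of_nonneg _ _ hs.le]
      apply ENNReal.rpow_le_rpow _ hs.le
      calc kr μ x z y = (avg R z y * kr μ x z y) * (avg R z y)⁻¹ := by
            rw [mul_right_comm, ENNReal.mul_inv_cancel hH0 hH1, one_mul]
        _ ≤ N x * (avg R z y)⁻¹ := mul_le_mul' h8 le_rfl
    rw [e1]
    calc kr q x z y * (kr μ x z y) ^ (2 - p) * G (z, y)
        ≤ kr q x z y * (N x ^ (2 - p) * ((avg R z y) ^ (2 - p))⁻¹) * G (z, y) := by gcongr
      _ = _ := by ring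
  -- the integral of T
  have hTint : ∫⁻ x, T x ∂m ≤ B * (C * ENNReal.ofReal (2 * Real.pi)) * E := by
    rw [hm, lintegral_wd hu.meas hTm]
    have e1 : ∫⁻ x, u x * T x = ∫⁻ x, ∫⁻ v, u x * (kr q x v.1 v.2 *
        (((avg R v.1 v.2) ^ (2 - p))⁻¹ * G v)) ∂hp := by
      refine lintegral_congr fun x => ?_
      have hm1 : Measurable (fun v : ℝ × ℝ => kr q x v.1 v.2 *
        (((avg R v.1 v.2) ^ (2 - p))⁻¹ * G v)) := hjoint.comp measurable_prodMk_left
      rw [hT]
      simp only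
      rw [lintegral_const_mul _ hm1]
    have hj2 : Measurable (fun w : ℝ × (ℝ × ℝ) => u w.1 * (kr q w.1 w.2.1 w.2.2 *
      (((avg R w.2.1 w.2.2) ^ (2 - p))⁻¹ * G w.2))) := (hu.meas.comp measurable_fst).mul hjoint
    rw [e1, lintegral_lintegral_swap hj2.aemeasurable]
    calc ∫⁻ v, (∫⁻ x : ℝ, u x * (kr q x v.1 v.2 * (((avg R v.1 v.2) ^ (2 - p))⁻¹ * G v))) ∂hp
        ≤ ∫⁻ v, B * (C * ENNReal.ofReal (2 * Real.pi)) *
          (ENNReal.ofReal v.2 * G v * PL (wt (2 - p) R u) v.1 v.2) ∂hp := by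
          refine lintegral_mono_ae ?_
          filter_upwards [ae_hp_pos] with v hv
          obtain ⟨z, y⟩ := v
          simp only at hv ⊢
          have hm3 : Measurable (fun x => u x * kr q x z y) := by
            refine hu.meas.mul ?_
            unfold kr; fun_prop
          calc ∫⁻ x, u x * (kr q x z y * (((avg R z y) ^ (2 - p))⁻¹ * G (z, y)))
              = ∫⁻ x, (((avg R z y) ^ (2 - p))⁻¹ * G (z, y)) * (u x * kr q x z y) := by
                refine lintegral_congr fun x => ?_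
                ring
            _ = (((avg R z y) ^ (2 - p))⁻¹ * G (z, y)) * ∫⁻ x, u x * kr q x z y :=
                lintegral_const_mul _ hm3
            _ ≤ (((avg R z y) ^ (2 - p))⁻¹ * G (z, y)) *
                (B * ∫⁻ x in Ioo (z - y) (z + y), u x) := by gcongr; exact hB z y hv
            _ = B * G (z, y) * (((avg R z y) ^ (2 - p))⁻¹ *
                ∫⁻ x in Ioo (z - y) (z + y), u x) := by ring
            _ ≤ B * G (z, y) * (C * ENNReal.ofReal (2 * Real.pi) *
                (ENNReal.ofReal y * PL (wt (2 - p) R u) z y)) :=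
                mul_le_mul' le_rfl (step7 hp1 hp2 hR hu z hv)
            _ = _ := by ring
      _ ≤ B * (C * ENNReal.ofReal (2 * Real.pi)) * E := by
          have htop : B * (C * ENNReal.ofReal (2 * Real.pi)) ≠ ∞ :=
            ENNReal.mul_ne_top hBt (ENNReal.mul_ne_top hCt ENNReal.ofReal_ne_top)
          rw [lintegral_const_mul' _ _ htop]
          gcongr
  -- the integral of N
  have hNint : ∫⁻ x, (N x) ^ p ∂m ≤ K8 ^ (p / r) *
      (ENNReal.ofReal (4 * (p / r) / (p / r - 1) * 2 ^ (p / r - 1)) * ∫⁻ x, u x * R x ^ p) := by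
    have e1 : ∀ x, (N x) ^ p = K8 ^ (p / r) * (Mr x) ^ (p / r) := by
      intro x
      rw [hN]
      simp only
      rw [← ENNReal.rpow_mul, ENNReal.mul_rpow_of_nonneg _ _ (by positivity)]
      congr 2 <;> (field_simp)
    simp_rw [e1]
    rw [lintegral_const_mul _ (hMrm.pow_const _)]
    gcongr
    refine (strong_type hpr m hRr).trans ?_
    refine mul_le_mul' le_rfl (le_of_eq ?_)
    have hmm : Measurable (fun x => (R x ^ r) ^ (p / r)) := hRr.pow_const _
    rw [hm, lintegral_wd hu.meas hmm]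
    refine lintegral_congr fun x => ?_
    rw [← ENNReal.rpow_mul]
    congr 2
    field_simp
  -- Hölder
  have hPQ : (2 / (2 - p)).HolderConjugate (2 / p) := by
    rw [Real.holderConjugate_iff]
    constructor
    · rw [lt_div_iff₀ hs]; linarith
    · field_simp; ring
  have hp0 : 0 < p := by linarith
  have hH := ENNReal.lintegral_mul_le_Lp_mul_Lq m hPQ
    (f := fun x => (N x) ^ ((2 - p) * (p / 2))) (g := fun x => (T x) ^ (p / 2))
    (hNm.pow_const _).aemeasurable (hTm.pow_const _).aemeasurable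
  have hgm : Measurable (fun x => ((N x) ^ (2 - p) * T x) ^ (p / 2)) :=
    ((hNm.pow_const _).mul hTm).pow_const _
  calc ∫⁻ x, u x * (∫⁻ q', kr l x q'.1 q'.2 * G q' ∂hp) ^ (p / 2)
      ≤ ∫⁻ x, u x * ((N x) ^ (2 - p) * T x) ^ (p / 2) := by
        refine lintegral_mono fun x => ?_
        gcongr
        exact hpt x
    _ = ∫⁻ x, ((N x) ^ (2 - p) * T x) ^ (p / 2) ∂m := by
        rw [hm, lintegral_wd hu.meas hgm]
    _ = ∫⁻ x, ((fun x => (N x) ^ ((2 - p) * (p / 2))) * (fun x => (T x) ^ (p / 2))) x ∂m := by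
        refine lintegral_congr fun x => ?_
        simp only [Pi.mul_apply]
        rw [ENNReal.mul_rpow_of_nonneg _ _ (by positivity), ← ENNReal.rpow_mul]
    _ ≤ _ := hH
    _ = (∫⁻ x, (N x) ^ p ∂m) ^ ((2 - p) / 2) * (∫⁻ x, T x ∂m) ^ (p / 2) := by
        rw [one_div_div, one_div_div]
        congr 2
        · refine lintegral_congr fun x => ?_
          rw [← ENNReal.rpow_mul]
          congr 1
          field_simp
        · refine lintegral_congr fun x => ?_
          rw [← ENNReal.rpow_mul, show p / 2 * (2 / p) = 1 by field_simp, ENNReal.rpow_one]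
    _ ≤ _ := by gcongr

end Pool.Agent.H55.MP842
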