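import Mathlib

/-!
# The uncentred maximal function of a locally finite measure on the line
-/

set_option autoImplicit false

open MeasureTheory Set Filter
open scoped ENNReal NNReal

namespace Pool.Agent.H55.MP842

/-- The open interval given by a pair. -/
def Iv (i : ℝ × ℝ) : Set ℝ := Ioo i.1 i.2

/-- The uncentred maximal function with respect to `μ`. -/
noncomputable def Mx (μ : Measure ℝ) (f : ℝ → ℝ≥0∞) (x : ℝ) : ℝ≥0∞ :=
  ⨆ i : {i : ℝ × ℝ // x ∈ Iv i}, (∫⁻ y in Iv i.1, f y ∂μ) / μ (Iv i.1)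

lemma le_Mx (μ : Measure ℝ) (f : ℝ → ℝ≥0∞) {x a b : ℝ} (hx : x ∈ Ioo a b) :
    (∫⁻ y in Ioo a b, f y ∂μ) / μ (Ioo a b) ≤ Mx μ f x :=
  le_iSup (fun i : {i : ℝ × ℝ // x ∈ Iv i} => (∫⁻ y in Iv i.1, f y ∂μ) / μ (Iv i.1))
    ⟨(a, b), hx⟩

lemma lt_Mx_iff {μ : Measure ℝ} {f : ℝ → ℝ≥0∞} {x : ℝ} {s : ℝ≥0∞} :
    s < Mx μ f x ↔ ∃ i : ℝ × ℝ, x ∈ Iv i ∧ s < (∫⁻ y in Iv i, f y ∂μ) / μ (Iv i) := by
  unfold Mx
  rw [lt_iSup_iff]
  constructor
  · rintro ⟨⟨i, hi⟩, h⟩; exact ⟨i, hi, h⟩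
  · rintro ⟨i, hi, h⟩; exact ⟨⟨i, hi⟩, h⟩

lemma isOpen_lt_Mx (μ : Measure ℝ) (f : ℝ → ℝ≥0∞) (s : ℝ≥0∞) : IsOpen {x | s < Mx μ f x} := by
  rw [isOpen_iff_forall_mem_open]
  intro x hx
  obtain ⟨i, hi, h⟩ := lt_Mx_iff.1 hx
  exact ⟨Iv i, fun y hy => lt_Mx_iff.2 ⟨i, hy, h⟩, isOpen_Ioo, hi⟩

lemma measurable_Mx (μ : Measure ℝ) (f : ℝ → ℝ≥0∞) : Measurable (Mx μ f) :=
  measurable_of_Ioi fun s => (isOpen_lt_Mx μ f s).measurableSet

lemma Mx_mono {μ : Measure ℝ} {f g : ℝ → ℝ≥0∞} (h : ∀ x, f x ≤ g x) (x : ℝ) :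
    Mx μ f x ≤ Mx μ g x := by
  unfold Mx
  refine iSup_mono fun i => ?_
  gcongr
  exact h _

/-- In a finite family of open intervals one can find a subfamily with the same union such that
each point is in at most two of its members. -/
lemma exists_overlap_two (T : Finset (ℝ × ℝ)) :
    ∃ T' ⊆ T, (∀ x, (∃ i ∈ T, x ∈ Iv i) → ∃ i ∈ T', x ∈ Iv i) ∧
      ∀ x, (T'.filter (fun i => i.1 < x ∧ x < i.2)).card ≤ 2 := by
  classical
  set P := T.powerset.filter (fun T' => ∀ x, (∃ i ∈ T, x ∈ Iv i) → ∃ i ∈ T', x ∈ Iv i) with hP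
  have hne : P.Nonempty := ⟨T, by
    rw [hP, Finset.mem_filter, Finset.mem_powerset]
    exact ⟨subset_rfl, fun _ h => h⟩⟩
  obtain ⟨T', hT', hmin⟩ := Finset.exists_min_image P Finset.card hne
  rw [hP, Finset.mem_filter, Finset.mem_powerset] at hT'
  refine ⟨T', hT'.1, hT'.2, fun x => ?_⟩
  by_contra hcard
  push Not at hcard
  set F := T'.filter (fun i => i.1 < x ∧ x < i.2) with hF
  have hFne : F.Nonempty := Finset.card_pos.1 (by omega)
  obtain ⟨i, hi, hi'⟩ := Finset.exists_min_image F (fun i => i.1) hFne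
  obtain ⟨j, hj, hj'⟩ := Finset.exists_max_image F (fun i => i.2) hFne
  have hk : ∃ k ∈ F, k ≠ i ∧ k ≠ j := by
    by_contra hcon
    push Not at hcon
    have hsub : F ⊆ {i, j} := by
      intro k hk
      by_cases h1 : k = i
      · simp [h1]
      · simp [hcon k hk h1]
    have := Finset.card_le_card hsub
    have h2 : ({i, j} : Finset (ℝ × ℝ)).card ≤ 2 := Finset.card_le_two
    omega
  obtain ⟨k, hk, hki, hkj⟩ := hk
  have hi1 := (Finset.mem_filter.1 hi)
  have hj1 := (Finset.mem_filter.1 hj)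
  have hk1 := (Finset.mem_filter.1 hk)
  have hcov : ∀ y, y ∈ Iv k → y ∈ Iv i ∨ y ∈ Iv j := by
    intro y hy
    have h1 := hi' k hk
    have h2 := hj' k hk
    rcases le_total y x with hyx | hyx
    · left; exact ⟨lt_of_le_of_lt h1 hy.1, lt_of_le_of_lt hyx hi1.2.2⟩
    · right; exact ⟨lt_of_lt_of_le hj1.2.1 hyx, lt_of_lt_of_le hy.2 h2⟩
  have hmem : T'.erase k ∈ P := by
    rw [hP, Finset.mem_filter, Finset.mem_powerset]
    refine ⟨(Finset.erase_subset _ _).trans hT'.1, ?_⟩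
    intro y hy
    obtain ⟨l, hl, hyl⟩ := hT'.2 y hy
    by_cases hlk : l = k
    · subst hlk
      rcases hcov y hyl with h | h
      · exact ⟨i, Finset.mem_erase.2 ⟨fun h => hki h.symm, hi1.1⟩, h⟩
      · exact ⟨j, Finset.mem_erase.2 ⟨fun h => hkj h.symm, hj1.1⟩, h⟩
    · exact ⟨l, Finset.mem_erase.2 ⟨hlk, hl⟩, hyl⟩
  have := hmin _ hmem
  have h3 := Finset.card_erase_lt_of_mem hk1.1
  omega

/-- Weak type inequality. -/
theorem weak_type (μ : Measure ℝ) [IsLocallyFiniteMeasure μ] {f : ℝ → ℝ≥0∞} (hf : Measurable f)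
    (s : ℝ≥0∞) : s * μ {x | s < Mx μ f x} ≤ 2 * ∫⁻ x, f x ∂μ := by
  set E := {x | s < Mx μ f x} with hE
  have hopen : IsOpen E := isOpen_lt_Mx μ f s
  rw [hopen.measure_eq_iSup_isCompact]
  simp_rw [ENNReal.mul_iSup]
  refine iSup_le fun K => iSup_le fun hKE => iSup_le fun hK => ?_
  -- finite cover
  have hx : ∀ x ∈ K, ∃ i : ℝ × ℝ, x ∈ Iv i ∧ s < (∫⁻ y in Iv i, f y ∂μ) / μ (Iv i) :=
    fun x hx => lt_Mx_iff.1 (hKE hx)
  choose! ι hι1 hι2 using hx
  obtain ⟨t, ht⟩ := hK.elim_nhds_subcover' (fun x _ => Iv (ι x))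
    (fun x hx => isOpen_Ioo.mem_nhds (hι1 x hx))
  classical
  set T : Finset (ℝ × ℝ) := t.image (fun x => ι x.1) with hT
  obtain ⟨T', hT'T, hcov, hover⟩ := exists_overlap_two T
  have hT' : ∀ i ∈ T', s * μ (Iv i) ≤ ∫⁻ y in Iv i, f y ∂μ := by
    intro i hi
    obtain ⟨x, _, hx⟩ := Finset.mem_image.1 (hT'T hi)
    have := hι2 x.1 x.2
    rw [hx] at this
    exact (ENNReal.mul_lt_of_lt_div this).le
  have hK' : K ⊆ ⋃ i ∈ T', Iv i := by
    intro x hx
    have h1 := ht hx
    rw [mem_iUnion₂] at h1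
    obtain ⟨y, hy, hxy⟩ := h1
    obtain ⟨i, hi, hxi⟩ := hcov x ⟨ι y.1, Finset.mem_image.2 ⟨y, hy, rfl⟩, hxy⟩
    rw [mem_iUnion₂]
    exact ⟨i, hi, hxi⟩
  calc s * μ K ≤ s * ∑ i ∈ T', μ (Iv i) := by
        gcongr
        exact (measure_mono hK').trans (measure_biUnion_finset_le _ _)
    _ = ∑ i ∈ T', s * μ (Iv i) := by rw [Finset.mul_sum]
    _ ≤ ∑ i ∈ T', ∫⁻ y in Iv i, f y ∂μ := Finset.sum_le_sum hT'
    _ = ∑ i ∈ T', ∫⁻ y, (Iv i).indicator f y ∂μ := by
        refine Finset.sum_congr rfl fun i _ => ?_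
        rw [lintegral_indicator (show MeasurableSet (Iv i) from measurableSet_Ioo)]
    _ = ∫⁻ y, ∑ i ∈ T', (Iv i).indicator f y ∂μ := by
        rw [lintegral_finsetSum]
        intro i _
        exact hf.indicator measurableSet_Ioo
    _ ≤ ∫⁻ y, 2 * f y ∂μ := by
        refine lintegral_mono fun y => ?_
        have h1 : ∑ i ∈ T', (Iv i).indicator f y =
            ((T'.filter (fun i => i.1 < y ∧ y < i.2)).card : ℝ≥0∞) * f y := by
          rw [← nsmul_eq_mul, ← Finset.sum_const, Finset.sum_filter]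
          refine Finset.sum_congr rfl fun i _ => ?_
          by_cases h : y ∈ Iv i
          · rw [indicator_of_mem h]
            exact (if_pos (show i.1 < y ∧ y < i.2 from h)).symm
          · rw [indicator_of_notMem h]
            exact (if_neg (show ¬ (i.1 < y ∧ y < i.2) from h)).symm
        simp only
        rw [h1]
        gcongr
        exact_mod_cast hover y
    _ = 2 * ∫⁻ x, f x ∂μ := lintegral_const_mul _ hf

/-- The weak type inequality with the function cut at height `s`. -/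
theorem weak_type' (μ : Measure ℝ) [IsLocallyFiniteMeasure μ] {f : ℝ → ℝ≥0∞} (hf : Measurable f)
    {s : ℝ≥0∞} (hs : s ≠ ∞) :
    s * μ {x | 2 * s < Mx μ f x} ≤ 2 * ∫⁻ x in {x | s < f x}, f x ∂μ := by
  have hm : MeasurableSet {x | s < f x} := measurableSet_lt measurable_const hf
  set g := {x | s < f x}.indicator f with hg
  have hgm : Measurable g := hf.indicator hm
  have hsub : {x | 2 * s < Mx μ f x} ⊆ {x | s < Mx μ g x} := by
    intro x hx
    obtain ⟨i, hi, h⟩ := lt_Mx_iff.1 hx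
    refine lt_Mx_iff.2 ⟨i, hi, ?_⟩
    have h1 : ∫⁻ y in Iv i, f y ∂μ ≤ (∫⁻ y in Iv i, g y ∂μ) + s * μ (Iv i) := by
      rw [← setLIntegral_const, ← lintegral_add_right _ measurable_const]
      refine lintegral_mono fun y => ?_
      simp only [hg]
      by_cases hy : s < f y
      · rw [indicator_of_mem (show y ∈ {x | s < f x} from hy)]; exact le_self_add
      · push Not at hy
        exact hy.trans le_add_self
    have h2 : (∫⁻ y in Iv i, f y ∂μ) / μ (Iv i) ≤ (∫⁻ y in Iv i, g y ∂μ) / μ (Iv i) + s := by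
      calc _ ≤ ((∫⁻ y in Iv i, g y ∂μ) + s * μ (Iv i)) / μ (Iv i) := by gcongr
        _ = (∫⁻ y in Iv i, g y ∂μ) / μ (Iv i) + s * μ (Iv i) / μ (Iv i) := ENNReal.add_div
        _ ≤ _ := by
          gcongr
          rw [mul_div_assoc]
          calc s * (μ (Iv i) / μ (Iv i)) ≤ s * 1 := by gcongr; exact ENNReal.div_self_le_one
            _ = s := mul_one s
    have h3 : 2 * s < (∫⁻ y in Iv i, g y ∂μ) / μ (Iv i) + s := lt_of_lt_of_le h h2
    rw [two_mul] at h3
    exact (ENNReal.add_lt_add_iff_right hs).1 h3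
  calc s * μ {x | 2 * s < Mx μ f x} ≤ s * μ {x | s < Mx μ g x} := by gcongr
    _ ≤ 2 * ∫⁻ x, g x ∂μ := weak_type μ hgm s
    _ = _ := by rw [hg, lintegral_indicator hm]

lemma lc_fin {r : ℝ} (hr : 0 < r) {R : ℝ} (hR : 0 ≤ R) :
    ∫⁻ s in Ioo 0 R, ENNReal.ofReal (r * s ^ (r - 1)) = ENNReal.ofReal (R ^ r) := by
  have hint : IntegrableOn (fun s : ℝ => r * s ^ (r - 1)) (Ioo 0 R) := by
    have h1 := (intervalIntegral.intervalIntegrable_rpow' (a := 0) (b := R)
      (show -1 < r - 1 by linarith)).const_mul r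
    rw [intervalIntegrable_iff_integrableOn_Ioo_of_le hR] at h1
    exact h1
  rw [← ofReal_integral_eq_lintegral_ofReal hint]
  · congr 1
    rw [← integral_Ioc_eq_integral_Ioo, ← intervalIntegral.integral_of_le hR,
      intervalIntegral.integral_const_mul, integral_rpow (Or.inl (by linarith))]
    rw [show r - 1 + 1 = r by ring, Real.zero_rpow hr.ne']
    field_simp
    ring
  · rw [EventuallyLE, ae_restrict_iff' measurableSet_Ioo]
    refine Eventually.of_forall fun s hs => ?_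
    have := hs.1
    simp only [Pi.zero_apply]
    positivity

/-- Layer cake for a single value. -/
lemma lc (c : ℝ≥0∞) {r : ℝ} (hr : 0 < r) :
    ∫⁻ s in Ioi (0 : ℝ), {s : ℝ | ENNReal.ofReal s < c}.indicator
      (fun s => ENNReal.ofReal (r * s ^ (r - 1))) s = c ^ r := by
  have hmeas : ∀ c : ℝ≥0∞, MeasurableSet {s : ℝ | ENNReal.ofReal s < c} := fun c =>
    measurableSet_lt ENNReal.measurable_ofReal measurable_const
  have hfin : ∀ R : ℝ, 0 ≤ R → ∫⁻ s in Ioi (0 : ℝ),
      {s : ℝ | ENNReal.ofReal s < ENNReal.ofReal R}.indicator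
      (fun s => ENNReal.ofReal (r * s ^ (r - 1))) s = ENNReal.ofReal (R ^ r) := by
    intro R hR
    rw [lintegral_indicator (hmeas _), Measure.restrict_restrict (hmeas _), ← lc_fin hr hR]
    congr 2
    ext s
    simp only [mem_inter_iff, mem_ofPred_eq, mem_Ioi, mem_Ioo]
    constructor
    · rintro ⟨h1, h2⟩
      refine ⟨h2, ?_⟩
      exact (ENNReal.ofReal_lt_ofReal_iff_of_nonneg h2.le).1 h1
    · rintro ⟨h1, h2⟩
      exact ⟨(ENNReal.ofReal_lt_ofReal_iff_of_nonneg h1.le).2 h2, h1⟩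
  by_cases hc : c = ∞
  · subst hc
    rw [ENNReal.top_rpow_of_pos hr, eq_top_iff]
    have h1 : ∀ n : ℕ, (n : ℝ≥0∞) ≤ ∫⁻ s in Ioi (0 : ℝ),
        {s : ℝ | ENNReal.ofReal s < ∞}.indicator
        (fun s => ENNReal.ofReal (r * s ^ (r - 1))) s := by
      intro n
      have h2 : (n : ℝ≥0∞) = ENNReal.ofReal (((n : ℝ) ^ r⁻¹) ^ r) := by
        rw [← Real.rpow_mul (by positivity), inv_mul_cancel₀ hr.ne', Real.rpow_one,
          ENNReal.ofReal_natCast]
      rw [h2, ← hfin ((n : ℝ) ^ r⁻¹) (by positivity)]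
      refine lintegral_mono fun s => ?_
      refine indicator_le_indicator_of_subset ?_ (fun _ => zero_le) s
      intro s _
      exact ENNReal.ofReal_lt_top
    rw [← ENNReal.iSup_natCast]
    refine iSup_le fun n => (h1 n).trans (le_of_eq ?_)
    rw [ENNReal.iSup_natCast]
  · obtain ⟨R, hR, rfl⟩ : ∃ R : ℝ, 0 ≤ R ∧ c = ENNReal.ofReal R :=
      ⟨c.toReal, ENNReal.toReal_nonneg, (ENNReal.ofReal_toReal hc).symm⟩
    rw [hfin R hR, ENNReal.ofReal_rpow_of_nonneg hR hr.le]

lemma two_mul_ofReal_half (s : ℝ) : 2 * ENNReal.ofReal (s / 2) = ENNReal.ofReal s := by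
  rw [← ENNReal.ofReal_ofNat, ← ENNReal.ofReal_mul (by norm_num)]
  congr 1; ring

/-- The maximal function of a locally finite measure is bounded on `L^r`, `r > 1`. -/
theorem strong_type {r : ℝ} (hr : 1 < r) (μ : Measure ℝ) [IsLocallyFiniteMeasure μ]
    {f : ℝ → ℝ≥0∞} (hf : Measurable f) :
    ∫⁻ x, (Mx μ f x) ^ r ∂μ ≤
      ENNReal.ofReal (4 * r / (r - 1) * 2 ^ (r - 1)) * ∫⁻ x, f x ^ r ∂μ := by
  have hr0 : 0 < r := by linarith
  have hr1 : 0 < r - 1 := by linarith
  have hM := measurable_Mx μ f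
  have e1 : ∫⁻ x, (Mx μ f x) ^ r ∂μ = ∫⁻ x, ∫⁻ s in Ioi (0 : ℝ),
      {s : ℝ | ENNReal.ofReal s < Mx μ f x}.indicator
      (fun s => ENNReal.ofReal (r * s ^ (r - 1))) s ∂volume ∂μ :=
    lintegral_congr fun x => (lc _ hr0).symm
  have hjm : Measurable (fun p : ℝ × ℝ => {s : ℝ | ENNReal.ofReal s < Mx μ f p.1}.indicator
      (fun s => ENNReal.ofReal (r * s ^ (r - 1))) p.2) := by
    have : (fun p : ℝ × ℝ => {s : ℝ | ENNReal.ofReal s < Mx μ f p.1}.indicator
      (fun s => ENNReal.ofReal (r * s ^ (r - 1))) p.2) =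
      {p : ℝ × ℝ | ENNReal.ofReal p.2 < Mx μ f p.1}.indicator
      (fun p => ENNReal.ofReal (r * p.2 ^ (r - 1))) := by
      funext p
      by_cases h : ENNReal.ofReal p.2 < Mx μ f p.1
      · rw [indicator_of_mem (show p.2 ∈ {s : ℝ | ENNReal.ofReal s < Mx μ f p.1} from h),
          indicator_of_mem (show p ∈ {p : ℝ × ℝ | ENNReal.ofReal p.2 < Mx μ f p.1} from h)]
      · rw [indicator_of_notMem (show p.2 ∉ {s : ℝ | ENNReal.ofReal s < Mx μ f p.1} from h),
          indicator_of_notMem (show p ∉ {p : ℝ × ℝ | ENNReal.ofReal p.2 < Mx μ f p.1} from h)]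
    rw [this]
    refine Measurable.indicator (by fun_prop) ?_
    exact measurableSet_lt (by fun_prop) (hM.comp measurable_fst)
  have hjf : Measurable (fun p : ℝ × ℝ => f p.1 * {s : ℝ | ENNReal.ofReal s < 2 * f p.1}.indicator
      (fun s => ENNReal.ofReal (4 * r * s ^ (r - 2))) p.2) := by
    refine (hf.comp measurable_fst).mul ?_
    have : (fun p : ℝ × ℝ => {s : ℝ | ENNReal.ofReal s < 2 * f p.1}.indicator
      (fun s => ENNReal.ofReal (4 * r * s ^ (r - 2))) p.2) =
      {p : ℝ × ℝ | ENNReal.ofReal p.2 < 2 * f p.1}.indicator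
      (fun p => ENNReal.ofReal (4 * r * p.2 ^ (r - 2))) := by
      funext p
      by_cases h : ENNReal.ofReal p.2 < 2 * f p.1
      · rw [indicator_of_mem (show p.2 ∈ {s : ℝ | ENNReal.ofReal s < 2 * f p.1} from h),
          indicator_of_mem (show p ∈ {p : ℝ × ℝ | ENNReal.ofReal p.2 < 2 * f p.1} from h)]
      · rw [indicator_of_notMem (show p.2 ∉ {s : ℝ | ENNReal.ofReal s < 2 * f p.1} from h),
          indicator_of_notMem (show p ∉ {p : ℝ × ℝ | ENNReal.ofReal p.2 < 2 * f p.1} from h)]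
    rw [this]
    refine Measurable.indicator (by fun_prop) ?_
    exact measurableSet_lt (by fun_prop) ((hf.comp measurable_fst).const_mul _)
  rw [e1, lintegral_lintegral_swap hjm.aemeasurable]
  have e2 : ∀ s : ℝ, 0 < s → ∫⁻ x, {s : ℝ | ENNReal.ofReal s < Mx μ f x}.indicator
      (fun s => ENNReal.ofReal (r * s ^ (r - 1))) s ∂μ ≤
      ∫⁻ x, f x * {s : ℝ | ENNReal.ofReal s < 2 * f x}.indicator
      (fun s => ENNReal.ofReal (4 * r * s ^ (r - 2))) s ∂μ := by
    intro s hs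
    have h1 : ∫⁻ x, {s : ℝ | ENNReal.ofReal s < Mx μ f x}.indicator
      (fun s => ENNReal.ofReal (r * s ^ (r - 1))) s ∂μ =
      ENNReal.ofReal (r * s ^ (r - 1)) * μ {x | ENNReal.ofReal s < Mx μ f x} := by
      rw [← lintegral_indicator_const (isOpen_lt_Mx μ f _).measurableSet]
      refine lintegral_congr fun x => ?_
      by_cases h : ENNReal.ofReal s < Mx μ f x
      · rw [indicator_of_mem (show s ∈ {s : ℝ | ENNReal.ofReal s < Mx μ f x} from h),
          indicator_of_mem (show x ∈ {x | ENNReal.ofReal s < Mx μ f x} from h)]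
      · rw [indicator_of_notMem (show s ∉ {s : ℝ | ENNReal.ofReal s < Mx μ f x} from h),
          indicator_of_notMem (show x ∉ {x | ENNReal.ofReal s < Mx μ f x} from h)]
    have hms : MeasurableSet {x | ENNReal.ofReal (s / 2) < f x} :=
      measurableSet_lt measurable_const hf
    have h2 : ∫⁻ x, f x * {s : ℝ | ENNReal.ofReal s < 2 * f x}.indicator
      (fun s => ENNReal.ofReal (4 * r * s ^ (r - 2))) s ∂μ =
      ENNReal.ofReal (4 * r * s ^ (r - 2)) * ∫⁻ x in {x | ENNReal.ofReal (s / 2) < f x}, f x ∂μ := by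
      rw [← lintegral_indicator hms, ← lintegral_const_mul _ (hf.indicator hms)]
      refine lintegral_congr fun x => ?_
      have hiff : ENNReal.ofReal s < 2 * f x ↔ ENNReal.ofReal (s / 2) < f x := by
        rw [← two_mul_ofReal_half s]
        exact ENNReal.mul_lt_mul_iff_right (by norm_num) (by norm_num)
      by_cases h : ENNReal.ofReal s < 2 * f x
      · rw [indicator_of_mem (show s ∈ {s : ℝ | ENNReal.ofReal s < 2 * f x} from h),
          indicator_of_mem (show x ∈ {x | ENNReal.ofReal (s / 2) < f x} from hiff.1 h), mul_comm]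
      · rw [indicator_of_notMem (show s ∉ {s : ℝ | ENNReal.ofReal s < 2 * f x} from h),
          indicator_of_notMem (show x ∉ {x | ENNReal.ofReal (s / 2) < f x} from
            fun h' => h (hiff.2 h'))]
        simp
    rw [h1, h2]
    have h3 := weak_type' μ hf (s := ENNReal.ofReal (s / 2)) ENNReal.ofReal_ne_top
    rw [two_mul_ofReal_half] at h3
    have h4 : ENNReal.ofReal (r * s ^ (r - 1)) =
        ENNReal.ofReal (2 * r * s ^ (r - 2)) * ENNReal.ofReal (s / 2) := by
      rw [← ENNReal.ofReal_mul (by positivity)]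
      congr 1
      have : s ^ (r - 1) = s ^ (r - 2) * s := by
        rw [← Real.rpow_add_one hs.ne']; congr 1; ring
      rw [this]; ring
    rw [h4, mul_assoc]
    calc _ ≤ ENNReal.ofReal (2 * r * s ^ (r - 2)) *
          (2 * ∫⁻ x in {x | ENNReal.ofReal (s / 2) < f x}, f x ∂μ) := by gcongr
      _ = _ := by
        rw [← mul_assoc]
        congr 1
        rw [mul_comm, ← ENNReal.ofReal_ofNat, ← ENNReal.ofReal_mul (by norm_num)]
        congr 1
        ring
  calc _ ≤ ∫⁻ s in Ioi (0 : ℝ), (∫⁻ x, f x * {s : ℝ | ENNReal.ofReal s < 2 * f x}.indicator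
      (fun s => ENNReal.ofReal (4 * r * s ^ (r - 2))) s ∂μ) :=
        setLIntegral_mono' measurableSet_Ioi fun s hs => e2 s hs
    _ = ∫⁻ x, ∫⁻ s in Ioi (0 : ℝ), f x * {s : ℝ | ENNReal.ofReal s < 2 * f x}.indicator
      (fun s => ENNReal.ofReal (4 * r * s ^ (r - 2))) s ∂volume ∂μ :=
        (lintegral_lintegral_swap hjf.aemeasurable).symm
    _ = ∫⁻ x, ENNReal.ofReal (4 * r / (r - 1) * 2 ^ (r - 1)) * f x ^ r ∂μ := by
        refine lintegral_congr fun x => ?_
        have hmeas : MeasurableSet {s : ℝ | ENNReal.ofReal s < 2 * f x} :=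
          measurableSet_lt ENNReal.measurable_ofReal measurable_const
        rw [lintegral_const_mul _ (Measurable.indicator (by fun_prop) hmeas)]
        have h5 : ∀ s, {s : ℝ | ENNReal.ofReal s < 2 * f x}.indicator
            (fun s => ENNReal.ofReal (4 * r * s ^ (r - 2))) s =
            ENNReal.ofReal (4 * r / (r - 1)) * {s : ℝ | ENNReal.ofReal s < 2 * f x}.indicator
            (fun s => ENNReal.ofReal ((r - 1) * s ^ (r - 1 - 1))) s := by
          intro s
          by_cases h : ENNReal.ofReal s < 2 * f x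
          · rw [indicator_of_mem (show s ∈ {s : ℝ | ENNReal.ofReal s < 2 * f x} from h),
              indicator_of_mem (show s ∈ {s : ℝ | ENNReal.ofReal s < 2 * f x} from h),
              ← ENNReal.ofReal_mul (by positivity)]
            congr 1
            rw [show r - 1 - 1 = r - 2 by ring]
            field_simp
          · rw [indicator_of_notMem (show s ∉ {s : ℝ | ENNReal.ofReal s < 2 * f x} from h),
              indicator_of_notMem (show s ∉ {s : ℝ | ENNReal.ofReal s < 2 * f x} from h),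
              mul_zero]
        simp_rw [h5]
        rw [lintegral_const_mul _ (Measurable.indicator (by fun_prop) hmeas), lc _ hr1,
          ENNReal.mul_rpow_of_nonneg _ _ hr1.le]
        have h6 : f x ^ r = f x * f x ^ (r - 1) := by
          conv_lhs => rw [show r = 1 + (r - 1) by ring]
          rw [ENNReal.rpow_add_of_nonneg _ _ zero_le_one hr1.le, ENNReal.rpow_one]
        have h7 : ENNReal.ofReal (4 * r / (r - 1) * 2 ^ (r - 1)) =
            ENNReal.ofReal (4 * r / (r - 1)) * 2 ^ (r - 1) := by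
          rw [ENNReal.ofReal_mul (by positivity), ← ENNReal.ofReal_rpow_of_pos (by norm_num)]
          simp
        rw [h6, h7]
        ring
    _ = _ := lintegral_const_mul _ (hf.pow_const _)

end Pool.Agent.H55.MP842
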