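import Pool.Agent.H55.MP842.MaxFn

/-!
# Muckenhoupt's theorem on the line, by Lerner's pointwise estimate
-/

set_option autoImplicit false

open MeasureTheory Set Filter
open scoped ENNReal NNReal

namespace Pool.Agent.H55.MP842

lemma locFin_of_Ioo {μ : Measure ℝ} (h : ∀ a b : ℝ, a < b → μ (Ioo a b) ≠ ∞) :
    IsLocallyFiniteMeasure μ :=
  ⟨fun x => ⟨Ioo (x - 1) (x + 1), Ioo_mem_nhds (by linarith) (by linarith),
    (h _ _ (by linarith)).lt_top⟩⟩

/-- The dual weight `u^{-1/(p-1)}`. -/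
noncomputable def dual (p : ℝ) (u : ℝ → ℝ≥0∞) (x : ℝ) : ℝ≥0∞ := u x ^ (-1 / (p - 1))

/-- Data of an `A_p` weight with constant `C`. -/
structure Ap (p : ℝ) (u : ℝ → ℝ≥0∞) (C : ℝ≥0∞) : Prop where
  meas : Measurable u
  ne_zero : ∀ᵐ x, u x ≠ 0
  ne_top : ∀ᵐ x, u x ≠ ∞
  finU : ∀ a b : ℝ, a < b → ∫⁻ x in Ioo a b, u x ≠ ∞
  finS : ∀ a b : ℝ, a < b → ∫⁻ x in Ioo a b, dual p u x ≠ ∞
  bound : ∀ a b : ℝ, a < b →
    (∫⁻ x in Ioo a b, u x) * (∫⁻ x in Ioo a b, dual p u x) ^ (p - 1)
      ≤ C * ENNReal.ofReal (b - a) ^ p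

lemma measurable_dual {p : ℝ} {u : ℝ → ℝ≥0∞} (hu : Measurable u) : Measurable (dual p u) :=
  hu.pow_const _

lemma wd_Ioo (u : ℝ → ℝ≥0∞) (a b : ℝ) :
    volume.withDensity u (Ioo a b) = ∫⁻ x in Ioo a b, u x :=
  withDensity_apply _ measurableSet_Ioo

lemma lintegral_wd {u : ℝ → ℝ≥0∞} (hu : Measurable u) {f : ℝ → ℝ≥0∞} (hf : Measurable f) :
    ∫⁻ x, f x ∂(volume.withDensity u) = ∫⁻ x, u x * f x := by
  rw [lintegral_withDensity_eq_lintegral_mul _ hu hf]
  rfl

lemma setLintegral_wd {u : ℝ → ℝ≥0∞} (hu : Measurable u) {f : ℝ → ℝ≥0∞} (hf : Measurable f)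
    {s : Set ℝ} (hs : MeasurableSet s) :
    ∫⁻ x in s, f x ∂(volume.withDensity u) = ∫⁻ x in s, u x * f x := by
  rw [restrict_withDensity hs, lintegral_withDensity_eq_lintegral_mul _ hu hf]
  rfl

lemma mul_div_self' {u : ℝ≥0∞} (hu : u ≠ 0) (hu' : u ≠ ∞) (x : ℝ≥0∞) : u * (x / u) = x := by
  rw [mul_comm]
  exact ENNReal.div_mul_cancel hu hu'

/-- The constant of Muckenhoupt's theorem. -/
noncomputable def Kmuck (p : ℝ) (C : ℝ≥0∞) : ℝ≥0∞ :=
  C ^ (p / (p - 1)) *
    (ENNReal.ofReal (4 * (p / (p - 1)) / (p / (p - 1) - 1) * 2 ^ (p / (p - 1) - 1)) *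
    ENNReal.ofReal (4 * p / (p - 1) * 2 ^ (p - 1)))

lemma Kmuck_ne_top {p : ℝ} (hp : 1 < p) {C : ℝ≥0∞} (hC : C ≠ ∞) : Kmuck p C ≠ ∞ := by
  have hp1 : 0 < p - 1 := by linarith
  unfold Kmuck
  exact ENNReal.mul_ne_top (ENNReal.rpow_ne_top_of_nonneg (by positivity) hC)
    (ENNReal.mul_ne_top ENNReal.ofReal_ne_top ENNReal.ofReal_ne_top)

/-- **Muckenhoupt's theorem.** -/
theorem muckenhoupt {p : ℝ} (hp : 1 < p) {u : ℝ → ℝ≥0∞} {C : ℝ≥0∞} (h : Ap p u C)
    {f : ℝ → ℝ≥0∞} (hf : Measurable f) :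
    ∫⁻ x, u x * (Mx volume f x) ^ p ≤ Kmuck p C * ∫⁻ x, u x * f x ^ p := by
  have hC := h.bound
  have hp1 : 0 < p - 1 := by linarith
  have hp0 : 0 < p := by linarith
  set q := p / (p - 1) with hq
  have hq1 : 1 < q := by rw [hq, lt_div_iff₀ hp1]; linarith
  set mU := volume.withDensity u with hmU
  set σ := dual p u with hσ
  have hσm : Measurable σ := measurable_dual h.meas
  set mS := volume.withDensity σ with hmS
  have : IsLocallyFiniteMeasure mU := locFin_of_Ioo fun a b hab => by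
    rw [hmU, wd_Ioo]; exact h.finU a b hab
  have : IsLocallyFiniteMeasure mS := locFin_of_Ioo fun a b hab => by
    rw [hmS, wd_Ioo]; exact h.finS a b hab
  have hS0 : ∀ᵐ x, σ x ≠ 0 := by
    filter_upwards [h.ne_zero, h.ne_top] with x h0 h1
    exact (ENNReal.rpow_pos (pos_iff_ne_zero.2 h0) h1).ne'
  have hS1 : ∀ᵐ x, σ x ≠ ∞ := by
    filter_upwards [h.ne_zero, h.ne_top] with x h0 h1
    exact ENNReal.rpow_ne_top_of_ne_zero h0 h1
  set F : ℝ → ℝ≥0∞ := fun x => f x / σ x with hF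
  have hFm : Measurable F := hf.div hσm
  have hMF := measurable_Mx mS F
  set g : ℝ → ℝ≥0∞ := fun x => (Mx mS F x) ^ (p - 1) / u x with hg
  have hgm : Measurable g := (hMF.pow_const _).div h.meas
  -- pointwise estimate
  have hpt : ∀ x, (Mx volume f x) ^ (p - 1) ≤ C * Mx mU g x := by
    intro x
    have h1 : ∀ i : {i : ℝ × ℝ // x ∈ Iv i},
        ((∫⁻ y in Iv i.1, f y) / volume (Iv i.1)) ^ (p - 1) ≤ C * Mx mU g x := by
      rintro ⟨⟨a, b⟩, hx⟩
      have hx' : x ∈ Ioo a b := hx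
      have hab : a < b := hx'.1.trans hx'.2
      show ((∫⁻ y in Ioo a b, f y) / volume (Ioo a b)) ^ (p - 1) ≤ _
      rw [Real.volume_Ioo]
      set N := mS (Ioo a b) with hN
      set D := mU (Ioo a b) with hD
      have hNfin : N ≠ ∞ := by rw [hN, hmS, wd_Ioo]; exact h.finS a b hab
      have hDfin : D ≠ ∞ := by rw [hD, hmU, wd_Ioo]; exact h.finU a b hab
      have hfF : ∫⁻ y in Ioo a b, f y = ∫⁻ y in Ioo a b, F y ∂mS := by
        rw [hmS, setLintegral_wd hσm hFm measurableSet_Ioo]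
        refine lintegral_congr_ae ?_
        filter_upwards [ae_restrict_of_ae hS0, ae_restrict_of_ae hS1] with y h0 h1
        rw [hF, mul_div_self' h0 h1]
      have hy : ∀ y ∈ Ioo a b, (∫⁻ y in Ioo a b, f y) ^ (p - 1) ≤
          N ^ (p - 1) * (Mx mS F y) ^ (p - 1) := by
        intro y hy
        rw [← ENNReal.mul_rpow_of_nonneg _ _ hp1.le]
        apply ENNReal.rpow_le_rpow _ hp1.le
        rw [hfF]
        have h2 := le_Mx mS F hy
        by_cases hN0 : N = 0
        · have : ∫⁻ y in Ioo a b, F y ∂mS = 0 := by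
            rw [Measure.restrict_eq_zero.2 hN0, lintegral_zero_measure]
          rw [this]; exact zero_le
        · rw [ENNReal.div_le_iff hN0 hNfin, mul_comm] at h2
          exact h2
      -- integrate over y
      have h3 : ENNReal.ofReal (b - a) * (∫⁻ y in Ioo a b, f y) ^ (p - 1) ≤
          N ^ (p - 1) * (D * Mx mU g x) := by
        calc ENNReal.ofReal (b - a) * (∫⁻ y in Ioo a b, f y) ^ (p - 1)
            = ∫⁻ _ in Ioo a b, (∫⁻ y in Ioo a b, f y) ^ (p - 1) := by
              rw [setLIntegral_const, Real.volume_Ioo, mul_comm]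
          _ ≤ ∫⁻ y in Ioo a b, N ^ (p - 1) * (Mx mS F y) ^ (p - 1) :=
              setLIntegral_mono' measurableSet_Ioo hy
          _ = N ^ (p - 1) * ∫⁻ y in Ioo a b, (Mx mS F y) ^ (p - 1) :=
              lintegral_const_mul _ (hMF.pow_const _)
          _ = N ^ (p - 1) * ∫⁻ y in Ioo a b, g y ∂mU := by
              rw [hmU, setLintegral_wd h.meas hgm measurableSet_Ioo]
              congr 1
              refine lintegral_congr_ae ?_
              filter_upwards [ae_restrict_of_ae h.ne_zero, ae_restrict_of_ae h.ne_top]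
                with y h0 h1
              rw [hg, mul_div_self' h0 h1]
          _ ≤ N ^ (p - 1) * (D * Mx mU g x) := by
              gcongr
              have h4 := le_Mx mU g hx'
              by_cases hD0 : D = 0
              · have : ∫⁻ y in Ioo a b, g y ∂mU = 0 := by
                  rw [Measure.restrict_eq_zero.2 hD0, lintegral_zero_measure]
                rw [this]; exact zero_le
              · rw [ENNReal.div_le_iff hD0 hDfin, mul_comm] at h4
                exact h4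
      have h5 : D * N ^ (p - 1) ≤ C * ENNReal.ofReal (b - a) ^ p := by
        rw [hD, hN, hmU, hmS, wd_Ioo, wd_Ioo]; exact hC a b hab
      have hba : 0 < b - a := by linarith
      have hba0 : ENNReal.ofReal (b - a) ≠ 0 := by simpa using hba
      have h6 : ENNReal.ofReal (b - a) * (∫⁻ y in Ioo a b, f y) ^ (p - 1) ≤
          ENNReal.ofReal (b - a) * (ENNReal.ofReal (b - a) ^ (p - 1) * (C * Mx mU g x)) := by
        calc _ ≤ N ^ (p - 1) * (D * Mx mU g x) := h3
          _ = (D * N ^ (p - 1)) * Mx mU g x := by ring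
          _ ≤ (C * ENNReal.ofReal (b - a) ^ p) * Mx mU g x := by gcongr
          _ = _ := by
            have : ENNReal.ofReal (b - a) ^ p =
                ENNReal.ofReal (b - a) * ENNReal.ofReal (b - a) ^ (p - 1) := by
              conv_lhs => rw [show p = 1 + (p - 1) by ring]
              rw [ENNReal.rpow_add _ _ hba0 ENNReal.ofReal_ne_top, ENNReal.rpow_one]
            rw [this]; ring
      have h7 := (ENNReal.mul_le_mul_iff_right hba0 ENNReal.ofReal_ne_top).1 h6
      rw [ENNReal.div_rpow_of_nonneg _ _ hp1.le]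
      rw [ENNReal.div_le_iff (ENNReal.rpow_pos (pos_iff_ne_zero.2 hba0) ENNReal.ofReal_ne_top).ne'
        (ENNReal.rpow_ne_top_of_ne_zero hba0 ENNReal.ofReal_ne_top), mul_comm]
      exact h7
    -- take the supremum
    have h8 : Mx volume f x ≤ (C * Mx mU g x) ^ (p - 1)⁻¹ := by
      unfold Mx
      refine iSup_le fun i => ?_
      rw [ENNReal.le_rpow_inv_iff hp1]
      exact h1 i
    exact (ENNReal.le_rpow_inv_iff hp1).1 h8
  -- integrate
  have hpt2 : ∀ x, (Mx volume f x) ^ p ≤ C ^ q * (Mx mU g x) ^ q := by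
    intro x
    have h1 := ENNReal.rpow_le_rpow (hpt x) (show 0 ≤ q by linarith)
    rw [← ENNReal.rpow_mul, ENNReal.mul_rpow_of_nonneg _ _ (show 0 ≤ q by linarith)] at h1
    have : (p - 1) * q = p := by rw [hq]; field_simp
    rwa [this] at h1
  have hMvm := measurable_Mx volume f
  have hMgm := measurable_Mx mU g
  calc ∫⁻ x, u x * (Mx volume f x) ^ p
      = ∫⁻ x, (Mx volume f x) ^ p ∂mU := (lintegral_wd h.meas (hMvm.pow_const _)).symm
    _ ≤ ∫⁻ x, C ^ q * (Mx mU g x) ^ q ∂mU := lintegral_mono hpt2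
    _ = C ^ q * ∫⁻ x, (Mx mU g x) ^ q ∂mU := lintegral_const_mul _ (hMgm.pow_const _)
    _ ≤ C ^ q * (ENNReal.ofReal (4 * q / (q - 1) * 2 ^ (q - 1)) * ∫⁻ x, g x ^ q ∂mU) := by
        gcongr
        exact strong_type hq1 mU hgm
    _ = C ^ q * (ENNReal.ofReal (4 * q / (q - 1) * 2 ^ (q - 1)) *
        ∫⁻ x, (Mx mS F x) ^ p ∂mS) := by
        congr 2
        rw [hmU, lintegral_wd h.meas (hgm.pow_const _), hmS,
          lintegral_wd hσm (hMF.pow_const _)]
        refine lintegral_congr_ae ?_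
        filter_upwards [h.ne_zero, h.ne_top] with x h0 h1
        have e1 : g x ^ q = (Mx mS F x) ^ p / u x ^ q := by
          rw [hg]
          simp only
          rw [ENNReal.div_rpow_of_nonneg _ _ (by linarith), ← ENNReal.rpow_mul,
            show (p - 1) * q = p by rw [hq]; field_simp]
        rw [e1, div_eq_mul_inv, mul_comm _ (u x ^ q)⁻¹, ← mul_assoc]
        congr 1
        rw [← ENNReal.rpow_neg]
        have : u x * u x ^ (-q) = u x ^ (1 + -q) := by
          rw [ENNReal.rpow_add _ _ h0 h1, ENNReal.rpow_one]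
        rw [this, hσ]
        unfold dual
        congr 1
        rw [hq]; field_simp; ring
    _ ≤ C ^ q * (ENNReal.ofReal (4 * q / (q - 1) * 2 ^ (q - 1)) *
        (ENNReal.ofReal (4 * p / (p - 1) * 2 ^ (p - 1)) * ∫⁻ x, F x ^ p ∂mS)) := by
        gcongr
        exact strong_type hp mS hFm
    _ = Kmuck p C * ∫⁻ x, F x ^ p ∂mS := by unfold Kmuck; rw [← hq]; ring
    _ = Kmuck p C * ∫⁻ x, u x * f x ^ p := by
        congr 1
        rw [hmS, lintegral_wd hσm (hFm.pow_const _)]
        refine lintegral_congr_ae ?_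
        filter_upwards [h.ne_zero, h.ne_top, hS0, hS1] with x h0 h1 h2 h3
        rw [hF]
        simp only
        rw [ENNReal.div_rpow_of_nonneg _ _ hp0.le, div_eq_mul_inv, mul_comm (f x ^ p),
          ← mul_assoc]
        congr 1
        rw [← ENNReal.rpow_neg]
        have : σ x * σ x ^ (-p) = σ x ^ (1 + -p) := by
          rw [ENNReal.rpow_add _ _ h2 h3, ENNReal.rpow_one]
        rw [this, hσ]
        unfold dual
        rw [← ENNReal.rpow_mul]
        conv_rhs => rw [← ENNReal.rpow_one (u x)]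
        congr 1
        field_simp
        ring

end Pool.Agent.H55.MP842
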