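import Pool.Agent.H55.MP842.Gst
import Pool.Agent.H55.MP842.Gap

/-!
# Preparation of the weight
-/

set_option autoImplicit false

open MeasureTheory Set Filter
open scoped ENNReal NNReal

namespace Pool.Agent.H55.MP842

open Pool.Agent.H24.MP842 (IsWeight MemA MemB)
open Pool.Agent.H55.MP842.Gap

lemma Ioo_eq_Icc_lint (g : ℝ → ℝ≥0∞) (a b : ℝ) :
    ∫⁻ x in Ioo a b, g x = ∫⁻ x in Icc a b, g x := by
  rw [Measure.restrict_congr_set Ioo_ae_eq_Icc]

/-- A nonzero weight satisfying `A_p` has a measurable version with the structure `Ap`. -/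
theorem prep {p : ℝ} (hp : 1 < p) {U : ℝ → ℝ} (hU : IsWeight U) (hA : MemA p U)
    (hne : ¬ (∀ᵐ x, ENNReal.ofReal (U x) = 0)) :
    ∃ (V : ℝ → ℝ≥0∞) (C : ℝ≥0), (∀ᵐ x, ENNReal.ofReal (U x) = V x) ∧ Ap p V C := by
  have hp1 : 0 < p - 1 := by linarith
  obtain ⟨C, hC⟩ := hA
  have hm := measU hU
  set V := hm.mk _ with hV
  have hVm : Measurable V := hm.measurable_mk
  have hVe : ∀ᵐ x, ENNReal.ofReal (U x) = V x := hm.ae_eq_mk
  have e1 : ∀ a b : ℝ, ∫⁻ x in Ioo a b, V x = ∫⁻ x in Icc a b, ENNReal.ofReal (U x) := by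
    intro a b
    rw [← Ioo_eq_Icc_lint]
    refine lintegral_congr_ae ?_
    filter_upwards [ae_restrict_of_ae hVe] with x hx using hx.symm
  have e2 : ∀ a b : ℝ, ∫⁻ x in Ioo a b, dual p V x =
      ∫⁻ x in Icc a b, (ENNReal.ofReal (U x)) ^ (-1 / (p - 1)) := by
    intro a b
    rw [← Ioo_eq_Icc_lint]
    refine lintegral_congr_ae ?_
    filter_upwards [ae_restrict_of_ae hVe] with x hx
    unfold dual
    rw [hx]
  have hfinU : ∀ a b : ℝ, a < b → ∫⁻ x in Ioo a b, V x ≠ ∞ := by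
    intro a b hab
    rw [e1]
    have h1 := m_lt_top hU ((a + b) / 2) (b - a)
    unfold m at h1
    rw [show (a + b) / 2 - (b - a) / 2 = a by ring, show (a + b) / 2 + (b - a) / 2 = b by ring]
      at h1
    exact h1.ne
  have hbound : ∀ a b : ℝ, a < b → (∫⁻ x in Ioo a b, V x) *
      (∫⁻ x in Ioo a b, dual p V x) ^ (p - 1) ≤ C * ENNReal.ofReal (b - a) ^ p := by
    intro a b hab
    rw [e1, e2]
    have h1 := hC a b hab
    set ℓ := ENNReal.ofReal (b - a) with hℓ
    have hℓ0 : ℓ ≠ 0 := ofReal_sub_ne_zero hab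
    have hℓ1 : ℓ ≠ ∞ := ENNReal.ofReal_ne_top
    set X := ∫⁻ x in Icc a b, ENNReal.ofReal (U x) with hX
    set Y := ∫⁻ x in Icc a b, (ENNReal.ofReal (U x)) ^ (-1 / (p - 1)) with hY
    have hℓp : ℓ ^ p = ℓ * ℓ ^ (p - 1) := by
      conv_lhs => rw [show p = 1 + (p - 1) by ring]
      rw [ENNReal.rpow_add _ _ hℓ0 hℓ1, ENNReal.rpow_one]
    calc X * Y ^ (p - 1) = ((X / ℓ) * ℓ) * ((Y / ℓ) * ℓ) ^ (p - 1) := by
          rw [ENNReal.div_mul_cancel hℓ0 hℓ1, ENNReal.div_mul_cancel hℓ0 hℓ1]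
      _ = ((X / ℓ) * (Y / ℓ) ^ (p - 1)) * ℓ ^ p := by
          rw [ENNReal.mul_rpow_of_nonneg _ _ hp1.le, hℓp]; ring
      _ ≤ C * ℓ ^ p := by gcongr
  -- some interval has positive mass
  have hpos : ∃ n : ℕ, ∫⁻ x in Ioo (-(n : ℝ)) n, V x ≠ 0 := by
    by_contra hcon
    push Not at hcon
    apply hne
    have h1 : ∀ n : ℕ, ∀ᵐ x, x ∈ Ioo (-(n : ℝ)) n → V x = 0 := by
      intro n
      have h2 := (lintegral_eq_zero_iff hVm).1 (hcon n)
      rwa [EventuallyEq, ae_restrict_iff' measurableSet_Ioo] at h2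
    rw [← ae_all_iff] at h1
    filter_upwards [h1, hVe] with x hx hx2
    obtain ⟨n, hn⟩ := exists_nat_gt |x|
    rw [hx2]
    exact hx n ⟨by linarith [neg_abs_le x], by linarith [le_abs_self x]⟩
  obtain ⟨n, hn⟩ := hpos
  have hfinS : ∀ a b : ℝ, a < b → ∫⁻ x in Ioo a b, dual p V x ≠ ∞ := by
    intro a b hab
    set a' := min a (-(n : ℝ)) with ha'
    set b' := max b n with hb'
    have hab' : a' < b' := lt_of_le_of_lt (min_le_left _ _) (lt_of_lt_of_le hab (le_max_left _ _))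
    have h1 := hbound a' b' hab'
    have h2 : ∫⁻ x in Ioo a' b', V x ≠ 0 := by
      intro h0
      apply hn
      refine le_antisymm ?_ zero_le
      rw [← h0]
      exact lintegral_mono_set (Ioo_subset_Ioo (min_le_right _ _) (le_max_right _ _))
    have h3 : (∫⁻ x in Ioo a' b', dual p V x) ^ (p - 1) ≠ ∞ := by
      intro htop
      rw [htop, ENNReal.mul_top h2] at h1
      have h4 : (C : ℝ≥0∞) * ENNReal.ofReal (b' - a') ^ p ≠ ∞ :=
        ENNReal.mul_ne_top ENNReal.coe_ne_top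
          (ENNReal.rpow_ne_top_of_nonneg (by linarith) ENNReal.ofReal_ne_top)
      exact h4 (top_le_iff.1 h1)
    have h5 : ∫⁻ x in Ioo a' b', dual p V x ≠ ∞ := by
      intro htop
      rw [htop, ENNReal.top_rpow_of_pos hp1] at h3
      exact h3 rfl
    refine ne_top_of_le_ne_top h5 ?_
    exact lintegral_mono_set (Ioo_subset_Ioo (min_le_left _ _) (le_max_left _ _))
  have hne0 : ∀ᵐ x, V x ≠ 0 := by
    have h1 : ∀ k : ℕ, ∀ᵐ x, x ∈ Ioo (-(k : ℝ)) k → dual p V x < ∞ := by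
      intro k
      rcases Nat.eq_zero_or_pos k with hk | hk
      · subst hk; simp
      · have h2 := ae_lt_top (measurable_dual (p := p) hVm)
          (hfinS (-(k : ℝ)) k (by have : (0 : ℝ) < k := by exact_mod_cast hk
                                  linarith))
        rwa [ae_restrict_iff' measurableSet_Ioo] at h2
    rw [← ae_all_iff] at h1
    filter_upwards [h1] with x hx h0
    obtain ⟨k, hk⟩ := exists_nat_gt |x|
    have := hx k ⟨by linarith [neg_abs_le x], by linarith [le_abs_self x]⟩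
    unfold dual at this
    rw [h0, ENNReal.zero_rpow_of_neg] at this
    · exact lt_irrefl _ this
    · apply div_neg_of_neg_of_pos (by norm_num) hp1
  have hnet : ∀ᵐ x, V x ≠ ∞ := by
    filter_upwards [hVe] with x hx
    rw [← hx]; exact ENNReal.ofReal_ne_top
  exact ⟨V, C, hVe, ⟨hVm, hne0, hnet, hfinU, hfinS, hbound⟩⟩

/-- The condition `B_q` in the form used in the proof. -/
theorem prepB {q : ℝ} (hq : 0 < q) {U : ℝ → ℝ} (hU : IsWeight U) (hB : MemB q U)
    {V : ℝ → ℝ≥0∞} (hV : ∀ᵐ x, ENNReal.ofReal (U x) = V x) :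
    ∃ B : ℝ≥0, ∀ z y : ℝ, 0 < y →
      ∫⁻ x, V x * kr q x z y ≤ B * ∫⁻ x in Ioo (z - y) (z + y), V x := by
  rw [memB_iff q hU] at hB
  obtain ⟨C, hC⟩ := hB
  refine ⟨2 * C, fun z y hy => ?_⟩
  have h1 := hC z (2 * y) (by linarith)
  have e1 : m U z (2 * y) = ∫⁻ x in Ioo (z - y) (z + y), V x := by
    unfold m
    rw [show z - 2 * y / 2 = z - y by ring, show z + 2 * y / 2 = z + y by ring, ← Ioo_eq_Icc_lint]
    refine lintegral_congr_ae ?_
    filter_upwards [ae_restrict_of_ae hV] with x hx using hx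
  rw [e1] at h1
  calc ∫⁻ x, V x * kr q x z y
      ≤ ∫⁻ x, 2 * (ENNReal.ofReal (U x) * ENNReal.ofReal (Pool.Agent.H55.MP842.Gap.ker q z (2 * y) x)) := by
        refine lintegral_mono_ae ?_
        filter_upwards [hV] with x hx
        rw [← hx, mul_left_comm]
        gcongr
        unfold kr Pool.Agent.H55.MP842.Gap.ker
        rw [← ENNReal.ofReal_ofNat, ← ENNReal.ofReal_mul (by norm_num)]
        apply ENNReal.ofReal_le_ofReal
        set d := |x - z| with hd
        have hd0 : 0 ≤ d := abs_nonneg _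
        have hyq : 0 < y ^ q := by positivity
        have hdq : 0 ≤ d ^ q := by positivity
        have h2 : y ^ q ≤ (2 * y) ^ q := Real.rpow_le_rpow hy.le (by linarith) hq.le
        have h3 : (d ^ q + y ^ q) / 2 ≤ (d + y) ^ q := by
          have h4 : d ^ q ≤ (d + y) ^ q := Real.rpow_le_rpow hd0 (by linarith) hq.le
          have h5 : y ^ q ≤ (d + y) ^ q := Real.rpow_le_rpow hy.le (by linarith) hq.le
          linarith
        rw [Real.div_rpow hy.le (by positivity), ← mul_div_assoc,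
          div_le_div_iff₀ (by positivity) (by positivity)]
        have h6 : 0 < (2 * y) ^ q := by positivity
        nlinarith [mul_le_mul_of_nonneg_left h3 h6.le, mul_nonneg hdq (sub_nonneg.2 h2)]
    _ = 2 * P q U z (2 * y) := by
        unfold P
        rw [lintegral_const_mul' _ _ (by norm_num)]
    _ ≤ 2 * (C * ∫⁻ x in Ioo (z - y) (z + y), V x) := by gcongr
    _ = _ := by push_cast; ring

/-- The majorant data for the Rubio de Francia function. -/
theorem prepR {p : ℝ} (hp : 1 < p) {u : ℝ → ℝ≥0∞} {C : ℝ≥0∞} (hC : C ≠ ∞) (hu : Ap p u C)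
    {f : ℝ → ℝ≥0∞} (hf : Measurable f) (hfin : ∫⁻ x, u x * f x ^ p ≠ ∞)
    (hf0 : ¬ (∀ᵐ x, f x = 0)) : Maj (RF (cRF p C) f) (2 * cRF p C) := by
  have hp0 : 0 < p := by linarith
  have hc0 := cRF_ne_zero hp C
  have hc1 := cRF_ne_top hp hC
  set c := cRF p C with hc
  have hD0 : 2 * c ≠ 0 := by simp [hc0]
  have hD1 : 2 * c ≠ ∞ := ENNReal.mul_ne_top (by norm_num) hc1
  refine ⟨measurable_RF hf, ?_, ?_, hD0, hD1, ?_⟩
  · intro x h0
    apply hf0
    -- the first iterate vanishes at x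
    have h1 : (2 * c)⁻¹ ^ 1 * iterM f 1 x ≤ RF c f x :=
      ENNReal.le_tsum (f := fun k : ℕ => (2 * c)⁻¹ ^ k * iterM f k x) 1
    rw [h0, pow_one, nonpos_iff_eq_zero, mul_eq_zero] at h1
    have h2 : Mx volume f x = 0 := by
      rcases h1 with h1 | h1
      · exact absurd h1 (ENNReal.inv_ne_zero.2 hD1)
      · exact h1
    have h3 : ∀ n : ℕ, ∀ᵐ t, t ∈ Ioo (x - (n + 1)) (x + (n + 1)) → f t = 0 := by
      intro n
      have hn : (0 : ℝ) < n + 1 := by positivity
      have h4 := le_Mx volume f (show x ∈ Ioo (x - (n + 1)) (x + (n + 1)) from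
        ⟨by linarith, by linarith⟩)
      rw [h2, nonpos_iff_eq_zero, ENNReal.div_eq_zero_iff] at h4
      have h5 : ∫⁻ t in Ioo (x - (n + 1)) (x + (n + 1)), f t = 0 := by
        rcases h4 with h4 | h4
        · exact h4
        · rw [Real.volume_Ioo] at h4; exact absurd h4 ENNReal.ofReal_ne_top
      have h6 := (lintegral_eq_zero_iff hf).1 h5
      rwa [EventuallyEq, ae_restrict_iff' measurableSet_Ioo] at h6
    rw [← ae_all_iff] at h3
    filter_upwards [h3] with t ht
    obtain ⟨n, hn⟩ := exists_nat_gt |t - x|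
    exact ht n ⟨by linarith [neg_abs_le (t - x)], by linarith [le_abs_self (t - x)]⟩
  · have h1 := RF_norm hp hC hu hf
    have h2 : ∫⁻ x, u x * (RF c f x) ^ p ≠ ∞ :=
      ne_top_of_le_ne_top (ENNReal.mul_ne_top (ENNReal.rpow_ne_top_of_nonneg hp0.le (by norm_num))
        hfin) h1
    have hm : Measurable (fun x => u x * (RF c f x) ^ p) :=
      hu.meas.mul ((measurable_RF hf).pow_const _)
    filter_upwards [ae_lt_top hm h2, hu.ne_zero] with x h3 h4 h5
    rw [h5, ENNReal.top_rpow_of_pos hp0, ENNReal.mul_top h4] at h3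
    exact lt_irrefl _ h3
  · intro a b x hx
    have h1 := le_Mx volume (RF c f) hx
    rw [Real.volume_Ioo] at h1
    exact h1.trans (M_RF_le hc0 hc1 hf x)

end Pool.Agent.H55.MP842
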