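import Pool.Agent.H55.MP842.Muck

/-!
# The Rubio de Francia majorant and the reduction to `A_2`
-/

set_option autoImplicit false

open MeasureTheory Set Filter
open scoped ENNReal NNReal

namespace Pool.Agent.H55.MP842

/-- Iterates of the maximal function. -/
noncomputable def iterM (f : ℝ → ℝ≥0∞) : ℕ → ℝ → ℝ≥0∞
  | 0 => f
  | k + 1 => Mx volume (iterM f k)

lemma measurable_iterM {f : ℝ → ℝ≥0∞} (hf : Measurable f) (k : ℕ) : Measurable (iterM f k) := by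
  cases k with
  | zero => exact hf
  | succ k => exact measurable_Mx _ _

/-- The Rubio de Francia majorant with parameter `c`. -/
noncomputable def RF (c : ℝ≥0∞) (f : ℝ → ℝ≥0∞) (x : ℝ) : ℝ≥0∞ :=
  ∑' k : ℕ, (2 * c)⁻¹ ^ k * iterM f k x

lemma measurable_RF {c : ℝ≥0∞} {f : ℝ → ℝ≥0∞} (hf : Measurable f) : Measurable (RF c f) :=
  Measurable.tsum fun k => (measurable_iterM hf k).const_mul _

lemma le_RF (c : ℝ≥0∞) (f : ℝ → ℝ≥0∞) (x : ℝ) : f x ≤ RF c f x := by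
  have := ENNReal.le_tsum (f := fun k : ℕ => (2 * c)⁻¹ ^ k * iterM f k x) 0
  unfold RF
  simpa [iterM] using this

lemma M_RF_le {c : ℝ≥0∞} (hc : c ≠ 0) (hc' : c ≠ ∞) {f : ℝ → ℝ≥0∞} (hf : Measurable f) (x : ℝ) :
    Mx volume (RF c f) x ≤ 2 * c * RF c f x := by
  have h2c0 : 2 * c ≠ 0 := by simp [hc]
  have h2c1 : 2 * c ≠ ∞ := ENNReal.mul_ne_top (by norm_num) hc'
  unfold Mx
  refine iSup_le ?_
  rintro ⟨⟨a, b⟩, hx⟩
  have hx' : x ∈ Ioo a b := hx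
  show (∫⁻ y in Ioo a b, RF c f y) / volume (Ioo a b) ≤ _
  have h1 : ∫⁻ y in Ioo a b, RF c f y =
      ∑' k : ℕ, (2 * c)⁻¹ ^ k * ∫⁻ y in Ioo a b, iterM f k y := by
    unfold RF
    rw [lintegral_tsum fun k => ((measurable_iterM hf k).const_mul _).aemeasurable]
    refine tsum_congr fun k => ?_
    rw [lintegral_const_mul _ (measurable_iterM hf k)]
  rw [h1, ENNReal.div_eq_inv_mul, ← ENNReal.tsum_mul_left]
  calc ∑' k : ℕ, (volume (Ioo a b))⁻¹ * ((2 * c)⁻¹ ^ k * ∫⁻ y in Ioo a b, iterM f k y)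
      ≤ ∑' k : ℕ, 2 * c * ((2 * c)⁻¹ ^ (k + 1) * iterM f (k + 1) x) := by
        refine ENNReal.tsum_le_tsum fun k => ?_
        have h2 := le_Mx volume (iterM f k) hx'
        have h3 : 2 * c * ((2 * c)⁻¹ ^ (k + 1) * iterM f (k + 1) x) =
            (2 * c)⁻¹ ^ k * iterM f (k + 1) x := by
          rw [pow_succ, ← mul_assoc, ← mul_assoc, mul_comm (2 * c) ((2 * c)⁻¹ ^ k),
            mul_assoc ((2 * c)⁻¹ ^ k), ENNReal.mul_inv_cancel h2c0 h2c1, mul_one]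
        rw [h3]
        calc _ = (2 * c)⁻¹ ^ k * ((∫⁻ y in Ioo a b, iterM f k y) / volume (Ioo a b)) := by
              rw [ENNReal.div_eq_inv_mul]; ring
          _ ≤ _ := by gcongr; exact h2
    _ = 2 * c * ∑' k : ℕ, ((2 * c)⁻¹ ^ (k + 1) * iterM f (k + 1) x) := ENNReal.tsum_mul_left
    _ ≤ 2 * c * RF c f x := by
        gcongr
        unfold RF
        exact ENNReal.tsum_comp_le_tsum_of_injective (f := fun k : ℕ => k + 1)
          (fun a b h => by simpa using h) (fun k => (2 * c)⁻¹ ^ k * iterM f k x)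

/-- Jensen's inequality for the weights `2^{-k}`. -/
lemma tsum_geom_rpow_le {p : ℝ} (hp : 1 < p) (a : ℕ → ℝ≥0∞) :
    (∑' k : ℕ, (2 : ℝ≥0∞)⁻¹ ^ k * a k) ^ p ≤
      2 ^ (p - 1) * ∑' k : ℕ, (2 : ℝ≥0∞)⁻¹ ^ k * a k ^ p := by
  have hp0 : 0 < p := by linarith
  have hp1 : 0 < p - 1 := by linarith
  set q := p / (p - 1) with hq
  have hq0 : 0 < q := by positivity
  have hpq : p.HolderConjugate q := by
    rw [Real.holderConjugate_iff]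
    refine ⟨hp, ?_⟩
    rw [hq]; field_simp; ring
  set Y := 2 ^ (p - 1) * ∑' k : ℕ, (2 : ℝ≥0∞)⁻¹ ^ k * a k ^ p with hY
  rw [← ENNReal.le_rpow_inv_iff hp0]
  apply ENNReal.tsum_le_of_sum_range_le
  intro n
  have h1 := ENNReal.inner_le_Lp_mul_Lq (Finset.range n)
    (fun k => ((2 : ℝ≥0∞)⁻¹ ^ k) ^ (p⁻¹) * a k) (fun k => ((2 : ℝ≥0∞)⁻¹ ^ k) ^ (q⁻¹)) hpq
  have e1 : ∀ k : ℕ, ((2 : ℝ≥0∞)⁻¹ ^ k) ^ (p⁻¹) * a k * ((2 : ℝ≥0∞)⁻¹ ^ k) ^ (q⁻¹) =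
      (2 : ℝ≥0∞)⁻¹ ^ k * a k := by
    intro k
    have h0 : (2 : ℝ≥0∞)⁻¹ ^ k ≠ 0 := by simp
    have h0' : (2 : ℝ≥0∞)⁻¹ ^ k ≠ ∞ := by simp
    rw [mul_right_comm, ← ENNReal.rpow_add _ _ h0 h0', hpq.inv_add_inv_eq_one, ENNReal.rpow_one]
  have e2 : ∀ k : ℕ, (((2 : ℝ≥0∞)⁻¹ ^ k) ^ (p⁻¹) * a k) ^ p = (2 : ℝ≥0∞)⁻¹ ^ k * a k ^ p := by
    intro k
    rw [ENNReal.mul_rpow_of_nonneg _ _ hp0.le, ← ENNReal.rpow_mul, inv_mul_cancel₀ hp0.ne',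
      ENNReal.rpow_one]
  have e3 : ∀ k : ℕ, (((2 : ℝ≥0∞)⁻¹ ^ k) ^ (q⁻¹)) ^ q = (2 : ℝ≥0∞)⁻¹ ^ k := by
    intro k
    rw [← ENNReal.rpow_mul, inv_mul_cancel₀ hq0.ne', ENNReal.rpow_one]
  simp only [e1, e2, e3] at h1
  have h2 : ∑ k ∈ Finset.range n, (2 : ℝ≥0∞)⁻¹ ^ k ≤ 2 := by
    calc _ ≤ ∑' k : ℕ, (2 : ℝ≥0∞)⁻¹ ^ k := ENNReal.sum_le_tsum _
      _ = 2 := by rw [ENNReal.tsum_geometric, ENNReal.one_sub_inv_two, inv_inv]
  calc _ ≤ _ := h1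
    _ ≤ (∑' k : ℕ, (2 : ℝ≥0∞)⁻¹ ^ k * a k ^ p) ^ (1 / p) * 2 ^ (1 / q) := by
        gcongr
        · exact ENNReal.sum_le_tsum _
    _ = Y ^ p⁻¹ := by
        rw [hY, ENNReal.mul_rpow_of_nonneg _ _ (by positivity), ← ENNReal.rpow_mul, mul_comm]
        congr 2
        · rw [hq]; field_simp
        · rw [one_div]

/-- The parameter of the Rubio de Francia majorant. -/
noncomputable def cRF (p : ℝ) (C : ℝ≥0∞) : ℝ≥0∞ := (Kmuck p C + 1) ^ p⁻¹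

lemma cRF_ne_top {p : ℝ} (hp : 1 < p) {C : ℝ≥0∞} (hC : C ≠ ∞) : cRF p C ≠ ∞ := by
  unfold cRF
  exact ENNReal.rpow_ne_top_of_nonneg (by positivity)
    (ENNReal.add_ne_top.2 ⟨Kmuck_ne_top hp hC, ENNReal.one_ne_top⟩)

lemma one_le_cRF {p : ℝ} (hp : 1 < p) (C : ℝ≥0∞) : 1 ≤ cRF p C := by
  unfold cRF
  calc (1 : ℝ≥0∞) = 1 ^ p⁻¹ := (ENNReal.one_rpow _).symm
    _ ≤ _ := ENNReal.rpow_le_rpow le_add_self (by positivity)

lemma cRF_ne_zero {p : ℝ} (hp : 1 < p) (C : ℝ≥0∞) : cRF p C ≠ 0 :=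
  (lt_of_lt_of_le zero_lt_one (one_le_cRF hp C)).ne'

lemma iterM_norm {p : ℝ} (hp : 1 < p) {u : ℝ → ℝ≥0∞} {C : ℝ≥0∞} (h : Ap p u C)
    {f : ℝ → ℝ≥0∞} (hf : Measurable f) (k : ℕ) :
    ∫⁻ x, u x * (iterM f k x) ^ p ≤ (Kmuck p C + 1) ^ k * ∫⁻ x, u x * f x ^ p := by
  induction k with
  | zero => simp [iterM]
  | succ k ih =>
    calc ∫⁻ x, u x * (iterM f (k + 1) x) ^ p
        ≤ Kmuck p C * ∫⁻ x, u x * (iterM f k x) ^ p := muckenhoupt hp h (measurable_iterM hf k)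
      _ ≤ (Kmuck p C + 1) * ((Kmuck p C + 1) ^ k * ∫⁻ x, u x * f x ^ p) := by
          gcongr
          exact le_self_add
      _ = _ := by rw [pow_succ]; ring

lemma RF_norm {p : ℝ} (hp : 1 < p) {u : ℝ → ℝ≥0∞} {C : ℝ≥0∞} (hC : C ≠ ∞) (h : Ap p u C)
    {f : ℝ → ℝ≥0∞} (hf : Measurable f) :
    ∫⁻ x, u x * (RF (cRF p C) f x) ^ p ≤ 2 ^ p * ∫⁻ x, u x * f x ^ p := by
  have hp0 : 0 < p := by linarith
  set c := cRF p C with hc
  have hc0 : c ≠ 0 := cRF_ne_zero hp C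
  have hc1 : c ≠ ∞ := cRF_ne_top hp hC
  have hcp : c ^ p = Kmuck p C + 1 := by
    rw [hc]; unfold cRF
    rw [← ENNReal.rpow_mul, inv_mul_cancel₀ hp0.ne', ENNReal.rpow_one]
  have h1 : ∀ x, RF c f x = ∑' k : ℕ, (2 : ℝ≥0∞)⁻¹ ^ k * (c⁻¹ ^ k * iterM f k x) := by
    intro x
    unfold RF
    refine tsum_congr fun k => ?_
    rw [ENNReal.mul_inv (Or.inl (by norm_num)) (Or.inl (by norm_num)), mul_pow, mul_assoc]
  have h2 : ∀ x, (RF c f x) ^ p ≤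
      2 ^ (p - 1) * ∑' k : ℕ, (2 : ℝ≥0∞)⁻¹ ^ k * (c⁻¹ ^ k * iterM f k x) ^ p := by
    intro x
    rw [h1]
    exact tsum_geom_rpow_le hp _
  have hcK : ∀ k : ℕ, ((c⁻¹ ^ k) ^ p) * (Kmuck p C + 1) ^ k = 1 := by
    intro k
    rw [← hcp, ← ENNReal.rpow_natCast, ← ENNReal.rpow_natCast, ← ENNReal.rpow_mul,
      mul_comm (k : ℝ) p, ENNReal.rpow_mul, ← ENNReal.mul_rpow_of_nonneg _ _ (by positivity),
      ← ENNReal.mul_rpow_of_nonneg _ _ hp0.le, ENNReal.inv_mul_cancel hc0 hc1,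
      ENNReal.one_rpow, ENNReal.one_rpow]
  have hum := h.meas
  calc ∫⁻ x, u x * (RF c f x) ^ p
      ≤ ∫⁻ x, 2 ^ (p - 1) * ∑' k : ℕ, u x * ((2 : ℝ≥0∞)⁻¹ ^ k * (c⁻¹ ^ k * iterM f k x) ^ p) := by
        refine lintegral_mono fun x => ?_
        simp only
        rw [ENNReal.tsum_mul_left, mul_left_comm]
        gcongr
        exact h2 x
    _ = 2 ^ (p - 1) * ∑' k : ℕ, (2 : ℝ≥0∞)⁻¹ ^ k * ((c⁻¹ ^ k) ^ p *
        ∫⁻ x, u x * (iterM f k x) ^ p) := by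
        have hm : ∀ k, Measurable (fun x => u x * ((2 : ℝ≥0∞)⁻¹ ^ k *
            (c⁻¹ ^ k * iterM f k x) ^ p)) := fun k =>
          hum.mul ((((measurable_iterM hf k).const_mul _).pow_const _).const_mul _)
        rw [lintegral_const_mul _ (Measurable.tsum hm),
          lintegral_tsum fun k => (hm k).aemeasurable]
        congr 1
        refine tsum_congr fun k => ?_
        have hm2 : Measurable (fun x => u x * (iterM f k x) ^ p) :=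
          hum.mul ((measurable_iterM hf k).pow_const _)
        rw [← lintegral_const_mul _ hm2, ← lintegral_const_mul _ (hm2.const_mul _)]
        refine lintegral_congr fun x => ?_
        rw [ENNReal.mul_rpow_of_nonneg _ _ hp0.le]
        ring
    _ ≤ 2 ^ (p - 1) * ∑' k : ℕ, (2 : ℝ≥0∞)⁻¹ ^ k * ∫⁻ x, u x * f x ^ p := by
        gcongr with k
        calc _ ≤ (c⁻¹ ^ k) ^ p * ((Kmuck p C + 1) ^ k * ∫⁻ x, u x * f x ^ p) := by
              gcongr; exact iterM_norm hp h hf k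
          _ = _ := by rw [← mul_assoc, hcK, one_mul]
    _ = 2 ^ p * ∫⁻ x, u x * f x ^ p := by
        rw [ENNReal.tsum_mul_right, ENNReal.tsum_geometric, ENNReal.one_sub_inv_two, inv_inv,
          ← mul_assoc]
        congr 1
        conv_rhs => rw [show p = (p - 1) + 1 by ring]
        rw [ENNReal.rpow_add _ _ (by norm_num) (by norm_num), ENNReal.rpow_one]

end Pool.Agent.H55.MP842
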