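import Pool.Agent.H55.MP842.Prep
import Pool.Agent.H24.MP842.Square

/-!
# Sufficiency: `A_p ∩ B_{λp/2}` implies the weighted inequality for `g_λ^*`
-/

set_option autoImplicit false

open MeasureTheory Set
open scoped ENNReal NNReal

namespace Pool.Agent.H55.MP842

open Pool.Agent.H55.MP842.Gap (self_improve)
open Pool.Agent.H24.MP842 (IsWeight MemA MemB poisson gradSq gStar PA2)

lemma PL_eq (g : ℝ → ℝ≥0∞) (z y : ℝ) : Pool.Agent.H24.MP842.PL g z y = PL g z y := rfl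

/-- The Poisson `A_2` constant. -/
noncomputable def Apois (B : ℝ≥0∞) : ℝ≥0∞ := 4 * (Kmuck 2 B ^ 2 * B)

lemma Apois_ne_top {B : ℝ≥0∞} (hB : B ≠ ∞) : Apois B ≠ ∞ := by
  unfold Apois
  exact ENNReal.mul_ne_top (by norm_num)
    (ENNReal.mul_ne_top (ENNReal.pow_ne_top (Kmuck_ne_top (by norm_num) hB)) hB)

theorem PA2_of_Ap {w : ℝ → ℝ≥0∞} {B : ℝ≥0∞} (hB : B ≠ ∞) (h : Ap 2 w B) :
    PA2 w (Apois B).toReal := by
  refine ⟨h.meas, h.ne_zero, h.ne_top, fun z y hy => ?_⟩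
  rw [PL_eq, PL_eq, ENNReal.ofReal_toReal (Apois_ne_top hB)]
  have h1 := PL_le h z hy
  have h2 := PL_le (Ap_inv h) z hy
  have h3 := h.bound (z - y) (z + y) (by linarith)
  have e1 : ∀ x, dual 2 w x = (w x)⁻¹ := dual_two w
  simp only [e1] at h3
  rw [show (2 : ℝ) - 1 = 1 by norm_num, ENNReal.rpow_one, show z + y - (z - y) = 2 * y by ring,
    ENNReal.rpow_two] at h3
  set W := ∫⁻ x in Ioo (z - y) (z + y), w x
  set W' := ∫⁻ x in Ioo (z - y) (z + y), (w x)⁻¹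
  set K := Kmuck 2 B with hK
  calc PL w z y * PL (fun x => (w x)⁻¹) z y
      ≤ (ENNReal.ofReal (1 / y) * K * W) * (ENNReal.ofReal (1 / y) * K * W') := by gcongr
    _ = (ENNReal.ofReal (1 / y) * ENNReal.ofReal (1 / y)) * K ^ 2 * (W * W') := by ring
    _ ≤ (ENNReal.ofReal (1 / y) * ENNReal.ofReal (1 / y)) * K ^ 2 *
        (B * ENNReal.ofReal (2 * y) ^ 2) := by gcongr
    _ = (ENNReal.ofReal (1 / y) * ENNReal.ofReal (1 / y) * ENNReal.ofReal (2 * y) ^ 2) *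
        (K ^ 2 * B) := by ring
    _ = Apois B := by
        unfold Apois
        rw [← ENNReal.ofReal_mul (by positivity), ← ENNReal.ofReal_pow (by positivity),
          ← ENNReal.ofReal_mul (by positivity)]
        congr 1
        rw [show 1 / y * (1 / y) * (2 * y) ^ 2 = 4 by field_simp; norm_num]
        simp

lemma poisson_zero {f : ℝ → ℝ} (hf : ∀ᵐ x, f x = 0) (z y : ℝ) : poisson f z y = 0 := by
  unfold poisson
  have h1 : ∀ᵐ x : ℝ, f (z - x) = 0 :=
    (quasiMeasurePreserving_sub_left volume z).ae hf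
  have h2 : ∫ x, y * f (z - x) / (x ^ 2 + y ^ 2) = 0 := by
    rw [integral_eq_zero_of_ae]
    filter_upwards [h1] with x hx
    simp [hx]
  rw [h2, mul_zero]

lemma poisson_congr {f g : ℝ → ℝ} (hf : ∀ᵐ x, f x = g x) : poisson f = poisson g := by
  funext z y
  unfold poisson
  have h1 : ∀ᵐ x : ℝ, f (z - x) = g (z - x) :=
    (quasiMeasurePreserving_sub_left volume z).ae hf
  congr 1
  refine integral_congr_ae ?_
  filter_upwards [h1] with x hx
  rw [hx]

lemma gStar_congr {f g : ℝ → ℝ} (hf : ∀ᵐ x, f x = g x) (lam : ℝ) : gStar lam f = gStar lam g := by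
  funext x
  unfold gStar gradSq
  rw [poisson_congr hf]

lemma gStar_zero {f : ℝ → ℝ} (hf : ∀ᵐ x, f x = 0) (lam x : ℝ) : gStar lam f x = 0 := by
  have h1 : ∀ z y, gradSq f z y = 0 := by
    intro z y
    unfold gradSq
    have e1 : (fun z' => poisson f z' y) = fun _ => 0 := by
      funext z'; exact poisson_zero hf z' y
    have e2 : (fun y' => poisson f z y') = fun _ => 0 := by
      funext y'; exact poisson_zero hf z y'
    rw [e1, e2]; simp
  unfold gStar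
  simp [h1]

lemma measurable_PL {w : ℝ → ℝ≥0∞} (hw : Measurable w) :
    Measurable fun r : ℝ × ℝ => PL w r.1 r.2 := by
  unfold PL
  have : Measurable fun r : (ℝ × ℝ) × ℝ =>
      ENNReal.ofReal (r.1.2 / (Real.pi * ((r.1.1 - r.2) ^ 2 + r.1.2 ^ 2))) * w r.2 := by
    refine Measurable.mul ?_ (hw.comp measurable_snd)
    fun_prop
  exact this.lintegral_prod_right'

/-- The weighted `L²` bound for the Rubio de Francia weight. -/
lemma sq_wt_le {p : ℝ} (hp2 : p < 2) (hp0 : 0 < p) {R V g : ℝ → ℝ≥0∞}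
    (hgR : ∀ x, g x ≤ R x) (hRtop : ∀ᵐ x, R x ≠ ∞) :
    ∫⁻ x, g x ^ 2 * wt (2 - p) R V x ≤ ∫⁻ x, V x * g x ^ p := by
  refine lintegral_mono_ae ?_
  filter_upwards [hRtop] with x hx
  unfold wt
  have hs : 0 ≤ 2 - p := by linarith
  have e1 : g x ^ 2 = g x ^ p * g x ^ (2 - p) := by
    rw [← ENNReal.rpow_add_of_nonneg _ _ hp0.le hs, show p + (2 - p) = (2 : ℝ) by ring,
      ENNReal.rpow_two]
  calc g x ^ 2 * ((R x ^ (2 - p))⁻¹ * V x)
      = V x * g x ^ p * (g x ^ (2 - p) * (R x ^ (2 - p))⁻¹) := by rw [e1]; ring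
    _ ≤ V x * g x ^ p * (R x ^ (2 - p) * (R x ^ (2 - p))⁻¹) := by
        gcongr
        exact hgR x
    _ ≤ V x * g x ^ p * 1 := by
        gcongr
        exact ENNReal.mul_inv_le_one _
    _ = _ := mul_one _

/-- Everything we need about a single function. -/
theorem one_fun {p : ℝ} (hp1 : 1 < p) (hp2 : p < 2) {V : ℝ → ℝ≥0∞} {C : ℝ≥0∞} (hC : C ≠ ∞)
    (hV : Ap p V C) {f : ℝ → ℝ} (hf : Measurable f)
    (hfin : ∫⁻ x, V x * ENNReal.ofReal |f x| ^ p ≠ ∞) (hf0 : ¬ (∀ᵐ x, f x = 0)) :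
    ∃ w : ℝ → ℝ≥0∞, w = wt (2 - p) (RF (cRF p C) (fun x => ENNReal.ofReal |f x|)) V ∧
      Maj (RF (cRF p C) (fun x => ENNReal.ofReal |f x|)) (2 * cRF p C) ∧
      PA2 w (Apois ((2 * cRF p C) ^ (2 - p) * C)).toReal ∧
      ∫⁻ x, ENNReal.ofReal (f x ^ 2) * w x ≤ ∫⁻ x, V x * ENNReal.ofReal |f x| ^ p := by
  set g : ℝ → ℝ≥0∞ := fun x => ENNReal.ofReal |f x| with hg
  have hgm : Measurable g := by fun_prop
  have hg0 : ¬ (∀ᵐ x, g x = 0) := by
    intro h; apply hf0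
    filter_upwards [h] with x hx
    simpa [hg] using hx
  have hMaj := prepR hp1 hC hV hgm hfin hg0
  have hD1 : (2 * cRF p C) ^ (2 - p) * C ≠ ∞ :=
    ENNReal.mul_ne_top (ENNReal.rpow_ne_top_of_nonneg (by linarith) hMaj.D1) hC
  refine ⟨_, rfl, hMaj, PA2_of_Ap hD1 (Ap_wt hp1 hp2 hMaj hV), ?_⟩
  have h1 := sq_wt_le (p := p) hp2 (by linarith) (V := V) (g := g) (R := RF (cRF p C) g)
    (fun x => le_RF _ _ x) hMaj.ne_top
  refine le_trans (le_of_eq ?_) h1
  refine lintegral_congr fun x => ?_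
  congr 1
  simp only [hg]
  rw [← ENNReal.ofReal_pow (abs_nonneg _), sq_abs]

/-- Absolute convergence of the Poisson integral. -/
theorem poisson_conv {p : ℝ} (hp1 : 1 < p) (hp2 : p < 2) {V : ℝ → ℝ≥0∞} {C : ℝ≥0∞} (hC : C ≠ ∞)
    (hV : Ap p V C) {f : ℝ → ℝ} (hf : Measurable f)
    (hfin : ∫⁻ x, V x * ENNReal.ofReal |f x| ^ p ≠ ∞) (z : ℝ) {y : ℝ} (hy : 0 < y) :
    Integrable (fun x => y * f (z - x) / (x ^ 2 + y ^ 2)) := by
  by_cases hf0 : ∀ᵐ x, f x = 0
  · have h1 : ∀ᵐ x : ℝ, f (z - x) = 0 := (quasiMeasurePreserving_sub_left volume z).ae hf0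
    refine (integrable_zero ℝ ℝ volume).congr ?_
    filter_upwards [h1] with x hx
    simp [hx]
  obtain ⟨w, hw, hMaj, hPA, hle⟩ := one_fun hp1 hp2 hC hV hf hfin hf0
  have hgm : Measurable (fun x => ENNReal.ofReal |f x|) := by fun_prop
  have h2 : ∫⁻ x, ENNReal.ofReal |f x| ^ 2 * w x ≠ ∞ := by
    refine ne_top_of_le_ne_top hfin (le_trans (le_of_eq ?_) hle)
    refine lintegral_congr fun x => ?_
    rw [← ENNReal.ofReal_pow (abs_nonneg _), sq_abs]
  have h3 := (hPA.PL_ne_top_of_sq hgm h2 z hy).1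
  rw [PL_eq] at h3
  unfold PL at h3
  have h4 : ∫⁻ x, ENNReal.ofReal (y / (Real.pi * ((z - x) ^ 2 + y ^ 2))) * ENNReal.ofReal |f x| =
      ∫⁻ x, ENNReal.ofReal (y / (Real.pi * (x ^ 2 + y ^ 2))) * ENNReal.ofReal |f (z - x)| := by
    rw [← lintegral_sub_left_eq_self _ z]
    refine lintegral_congr fun x => ?_
    rw [show z - (z - x) = x by ring]
  rw [h4] at h3
  have hm : Measurable (fun x => y * f (z - x) / (x ^ 2 + y ^ 2)) := by fun_prop
  refine ⟨hm.aestronglyMeasurable, ?_⟩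
  rw [hasFiniteIntegral_iff_norm]
  have h5 : ∫⁻ x, ENNReal.ofReal ‖y * f (z - x) / (x ^ 2 + y ^ 2)‖ = ENNReal.ofReal Real.pi *
      ∫⁻ x, ENNReal.ofReal (y / (Real.pi * (x ^ 2 + y ^ 2))) * ENNReal.ofReal |f (z - x)| := by
    rw [← lintegral_const_mul' _ _ ENNReal.ofReal_ne_top]
    refine lintegral_congr fun x => ?_
    have hpi := Real.pi_pos
    have hxy : 0 < x ^ 2 + y ^ 2 := by positivity
    rw [← ENNReal.ofReal_mul (by positivity), ← ENNReal.ofReal_mul hpi.le]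
    congr 1
    rw [Real.norm_eq_abs, abs_div, abs_mul, abs_of_pos hy, abs_of_pos hxy]
    field_simp
  rw [h5]
  exact ENNReal.mul_lt_top ENNReal.ofReal_lt_top (lt_top_iff_ne_top.2 h3)

/-- The estimate for measurable functions. -/
theorem suff_aux {lam p : ℝ} (hlam : 1 < lam) (hp1 : 1 < p) (hp2 : p < 2)
    {V : ℝ → ℝ≥0∞} {C : ℝ≥0} (hV : Ap p V C) {q : ℝ} (hq : 0 < q) (hq2 : q < lam * p / 2)
    {B : ℝ≥0} (hB : ∀ z y : ℝ, 0 < y →
      ∫⁻ x, V x * kr q x z y ≤ B * ∫⁻ x in Ioo (z - y) (z + y), V x) :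
    ∃ K : ℝ≥0, ∀ f : ℝ → ℝ, Measurable f → ∫⁻ x, V x * ENNReal.ofReal |f x| ^ p ≠ ∞ →
      ∫⁻ x, V x * gStar lam f x ^ p ≤ K * ∫⁻ x, V x * ENNReal.ofReal |f x| ^ p := by
  have hp0 : 0 < p := by linarith
  have hs : 0 < 2 - p := by linarith
  have hC : (C : ℝ≥0∞) ≠ ∞ := ENNReal.coe_ne_top
  set D : ℝ≥0∞ := 2 * cRF p C with hD
  have hD1 : D ≠ ∞ := ENNReal.mul_ne_top (by norm_num) (cRF_ne_top hp1 hC)
  set A := (Apois (D ^ (2 - p) * C)).toReal with hA
  have hlamq : 0 < lam - q := by nlinarith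
  set μ := (lam - q) / (2 - p) with hμ
  have hμ0 : 0 < μ := by positivity
  have hl : lam = q + μ * (2 - p) := by rw [hμ]; field_simp; ring
  have hqμ : q / μ < p := by
    rw [hμ, div_div_eq_mul_div, div_lt_iff₀ hlamq]
    nlinarith
  have hr0 : 0 < q / μ := by positivity
  set K1 : ℝ≥0∞ := (D ^ (q / μ) * (ENNReal.ofReal (2 ^ q) * B)) ^ (p / (q / μ)) *
    (ENNReal.ofReal (4 * (p / (q / μ)) / (p / (q / μ) - 1) * 2 ^ (p / (q / μ) - 1)) * 2 ^ p)
    with hK1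
  set K2 : ℝ≥0∞ := B * (C * ENNReal.ofReal (2 * Real.pi)) * ENNReal.ofReal (156 * A ^ 3) with hK2
  have hK1t : K1 ≠ ∞ := by
    rw [hK1]
    refine ENNReal.mul_ne_top (ENNReal.rpow_ne_top_of_nonneg (by positivity) ?_) ?_
    · exact ENNReal.mul_ne_top (ENNReal.rpow_ne_top_of_nonneg hr0.le hD1)
        (ENNReal.mul_ne_top ENNReal.ofReal_ne_top ENNReal.coe_ne_top)
    · exact ENNReal.mul_ne_top ENNReal.ofReal_ne_top
        (ENNReal.rpow_ne_top_of_nonneg hp0.le (by norm_num))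
  have hK2t : K2 ≠ ∞ := by
    rw [hK2]
    exact ENNReal.mul_ne_top (ENNReal.mul_ne_top ENNReal.coe_ne_top
      (ENNReal.mul_ne_top hC ENNReal.ofReal_ne_top)) ENNReal.ofReal_ne_top
  have hK : K1 ^ ((2 - p) / 2) * K2 ^ (p / 2) ≠ ∞ :=
    ENNReal.mul_ne_top (ENNReal.rpow_ne_top_of_nonneg (by positivity) hK1t)
      (ENNReal.rpow_ne_top_of_nonneg (by positivity) hK2t)
  clear_value K1 K2
  refine ⟨(K1 ^ ((2 - p) / 2) * K2 ^ (p / 2)).toNNReal, fun f hf hfin => ?_⟩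
  rw [ENNReal.coe_toNNReal hK]
  by_cases hf0 : ∀ᵐ x, f x = 0
  · have : ∫⁻ x, V x * gStar lam f x ^ p = 0 := by
      simp [gStar_zero hf0, ENNReal.zero_rpow_of_pos hp0]
    rw [this]; exact zero_le
  obtain ⟨w, hw, hMaj, hPA, hle⟩ := one_fun hp1 hp2 hC hV hf hfin hf0
  set F := ∫⁻ x, V x * ENNReal.ofReal |f x| ^ p with hF
  have hsq := hPA.square_estimate hf (ne_top_of_le_ne_top hfin hle)
  obtain ⟨g1, g2⟩ := hPA.good_parts hf (ne_top_of_le_ne_top hfin hle)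
  obtain ⟨g, hgm, hg0, hge⟩ := Pool.Agent.H24.MP842.gradSq_meas hf g1 g2
  set R := RF (cRF p C) (fun x => ENNReal.ofReal |f x|) with hR
  have hgm0 : Measurable (fun x => ENNReal.ofReal |f x|) := by fun_prop
  have hwm : Measurable w := hPA.meas
  set G : ℝ × ℝ → ℝ≥0∞ := fun v => ENNReal.ofReal (g v) with hG
  have hGm : Measurable G := by fun_prop
  have hE : ∫⁻ v, ENNReal.ofReal v.2 * G v * PL (wt (2 - p) R V) v.1 v.2 ∂hp ≤
      ENNReal.ofReal (156 * A ^ 3) * F := by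
    rw [← hw]
    unfold hp
    have hPLm := measurable_PL hwm
    rw [lintegral_prod _ (by fun_prop)]
    calc ∫⁻ z, ∫⁻ y in Ioi (0 : ℝ), ENNReal.ofReal (z, y).2 * G (z, y) * PL w (z, y).1 (z, y).2
        = ∫⁻ z, ∫⁻ y in Ioi (0 : ℝ), ENNReal.ofReal (y * gradSq f z y) *
            Pool.Agent.H24.MP842.PL w z y := by
          refine lintegral_congr fun z => ?_
          refine setLIntegral_congr_fun measurableSet_Ioi fun y hy => ?_
          have hy' : (0 : ℝ) < y := hy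
          simp only [hG]
          rw [PL_eq, hge z y hy', ENNReal.ofReal_mul hy'.le]
      _ ≤ ENNReal.ofReal (156 * A ^ 3) * ∫⁻ x, ENNReal.ofReal (f x ^ 2) * w x := hsq
      _ ≤ _ := by gcongr
  have hmain := step9 hp1 hp2 hq hμ0 hqμ hl hMaj hV hC ENNReal.coe_ne_top hB hGm hE
  have e1 : ∀ x, gStar lam f x ^ p = (∫⁻ v, kr lam x v.1 v.2 * G v ∂hp) ^ (p / 2) := by
    intro x
    unfold gStar
    rw [← ENNReal.rpow_mul, show 1 / 2 * p = p / 2 by ring]
    congr 1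
    have hkm : Measurable (fun v : ℝ × ℝ => kr lam x v.1 v.2 * G v) := by
      unfold kr; fun_prop
    unfold hp
    rw [lintegral_prod _ hkm.aemeasurable]
    refine lintegral_congr fun z => ?_
    refine setLIntegral_congr_fun measurableSet_Ioi fun y hy => ?_
    have hy' : (0 : ℝ) < y := hy
    simp only [hG]
    rw [hge z y hy']
    unfold kr
    rw [ENNReal.ofReal_mul (by positivity)]
  simp only [e1]
  refine hmain.trans ?_
  have h2 := RF_norm hp1 hC hV hgm0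
  have hsum : F ^ ((2 - p) / 2) * F ^ (p / 2) = F := by
    rw [← ENNReal.rpow_add_of_nonneg _ _ (by positivity) (by positivity),
      show (2 - p) / 2 + p / 2 = 1 by ring, ENNReal.rpow_one]
  calc _ ≤ (K1 * F) ^ ((2 - p) / 2) * (K2 * F) ^ (p / 2) := by
        refine mul_le_mul' ?_ ?_
        · refine ENNReal.rpow_le_rpow ?_ (by positivity)
          rw [hK1]
          calc _ ≤ (D ^ (q / μ) * (ENNReal.ofReal (2 ^ q) * B)) ^ (p / (q / μ)) *
                (ENNReal.ofReal (4 * (p / (q / μ)) / (p / (q / μ) - 1) * 2 ^ (p / (q / μ) - 1)) *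
                (2 ^ p * F)) := by gcongr
            _ = _ := by ring
        · refine ENNReal.rpow_le_rpow ?_ (by positivity)
          rw [hK2]
          exact le_of_eq (by ring)
    _ = K1 ^ ((2 - p) / 2) * K2 ^ (p / 2) * (F ^ ((2 - p) / 2) * F ^ (p / 2)) := by
        rw [ENNReal.mul_rpow_of_nonneg K1 F (by positivity),
          ENNReal.mul_rpow_of_nonneg K2 F (by positivity)]
        ring
    _ = _ := by rw [hsum]

/-- **Sufficiency.** -/
theorem sufficiency {lam p : ℝ} (hlam : 1 < lam) (hp1 : 1 < p) (hp2 : p < 2)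
    (hlp : 1 < lam * p / 2) {U : ℝ → ℝ} (hU : IsWeight U) (hA : MemA p U)
    (hB : MemB (lam * p / 2) U) :
    ∃ K : ℝ≥0, ∀ f : ℝ → ℝ, AEMeasurable f →
      ∫⁻ x, ENNReal.ofReal (|f x| ^ p * U x) ≠ ∞ →
      ∫⁻ x, gStar lam f x ^ p * ENNReal.ofReal (U x) ≤
        K * ∫⁻ x, ENNReal.ofReal (|f x| ^ p * U x) := by
  have hp0 : 0 < p := by linarith
  by_cases hne : ∀ᵐ x, ENNReal.ofReal (U x) = 0
  · refine ⟨0, fun f _ _ => ?_⟩
    have : ∫⁻ x, gStar lam f x ^ p * ENNReal.ofReal (U x) = 0 := by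
      rw [lintegral_congr_ae (g := fun _ => 0)]
      · simp
      · filter_upwards [hne] with x hx
        rw [hx, mul_zero]
    rw [this]; exact zero_le
  obtain ⟨V, C, hVe, hV⟩ := prep hp1 hU hA hne
  obtain ⟨q, hq1, hq2, hBq⟩ := self_improve hlp hU hB
  obtain ⟨B, hBV⟩ := prepB (by linarith) hU hBq hVe
  obtain ⟨K, hK⟩ := suff_aux hlam hp1 hp2 hV (by linarith) hq2 hBV
  refine ⟨K, fun f hf hfin => ?_⟩
  set g := hf.mk f with hg
  have hgm : Measurable g := hf.measurable_mk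
  have hfg : ∀ᵐ x, f x = g x := hf.ae_eq_mk
  have e1 : ∫⁻ x, ENNReal.ofReal (|f x| ^ p * U x) = ∫⁻ x, V x * ENNReal.ofReal |g x| ^ p := by
    refine lintegral_congr_ae ?_
    filter_upwards [hfg, hVe] with x hx hx2
    rw [hx, ENNReal.ofReal_mul (by positivity), hx2, mul_comm,
      ENNReal.ofReal_rpow_of_nonneg (abs_nonneg _) hp0.le]
  have e2 : ∫⁻ x, gStar lam f x ^ p * ENNReal.ofReal (U x) = ∫⁻ x, V x * gStar lam g x ^ p := by
    rw [gStar_congr hfg]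
    refine lintegral_congr_ae ?_
    filter_upwards [hVe] with x hx2
    rw [hx2, mul_comm]
  rw [e2, e1]
  exact hK g hgm (by rwa [← e1])

/-- Absolute convergence of the Poisson integral for `U` in `A_p`, `U` not a.e. zero. -/
theorem poisson_conv' {p : ℝ} (hp1 : 1 < p) (hp2 : p < 2) {U : ℝ → ℝ} (hU : IsWeight U)
    (hA : MemA p U) (hne : ¬ (∀ᵐ x, U x = 0)) {f : ℝ → ℝ} (hf : AEMeasurable f)
    (hfin : ∫⁻ x, ENNReal.ofReal (|f x| ^ p * U x) ≠ ∞) (z : ℝ) {y : ℝ} (hy : 0 < y) :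
    Integrable (fun x => y * f (z - x) / (x ^ 2 + y ^ 2)) := by
  have hp0 : 0 < p := by linarith
  have hne' : ¬ (∀ᵐ x, ENNReal.ofReal (U x) = 0) := by
    intro h; apply hne
    filter_upwards [h] with x hx
    exact le_antisymm (ENNReal.ofReal_eq_zero.1 hx) (hU.1 x)
  obtain ⟨V, C, hVe, hV⟩ := prep hp1 hU hA hne'
  set g := hf.mk f with hg
  have hgm : Measurable g := hf.measurable_mk
  have hfg : ∀ᵐ x, f x = g x := hf.ae_eq_mk
  have e1 : ∫⁻ x, ENNReal.ofReal (|f x| ^ p * U x) = ∫⁻ x, V x * ENNReal.ofReal |g x| ^ p := by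
    refine lintegral_congr_ae ?_
    filter_upwards [hfg, hVe] with x hx hx2
    rw [hx, ENNReal.ofReal_mul (by positivity), hx2, mul_comm,
      ENNReal.ofReal_rpow_of_nonneg (abs_nonneg _) hp0.le]
  have h1 := poisson_conv hp1 hp2 ENNReal.coe_ne_top hV hgm (by rwa [← e1]) z hy
  refine h1.congr ?_
  filter_upwards [(quasiMeasurePreserving_sub_left volume z).ae hfg] with x hx
  rw [hx]

end Pool.Agent.H55.MP842
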